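import Pool.Agent.H26.HR.Inv
import Pool.Agent.H26.SD.Grp
import Pool.Agent.H73.HVN.Two

/-!
# Project HM, module Basic: inversions of the two types

`(W, S)` a Coxeter system, `L ⊆ S`, the labels between `L` and `S ∖ L` are `2` or `∞`. `χ` is the character of `W`
with `χ = 1` on `L` and `χ = -1` on `S ∖ L`. A reflection `t` is of type `L` if `χ t = 1`.
-/

set_option autoImplicit false

namespace Pool.Agent.H73.HM

open Pool.Agent.H73.HVN Pool.Agent.H26.HR

universe u v

variable {B : Type v} {W : Type u} [Group W] {M : CoxeterMatrix B} (cs : CoxeterSystem M W)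

/-- the standing hypotheses -/
structure Mix (L : Set B) (χ : W →* ℤˣ) : Prop where
  one : ∀ i ∈ L, χ (cs.simple i) = 1
  neg : ∀ i, i ∉ L → χ (cs.simple i) = -1
  lab : ∀ i, i ∉ L → ∀ j ∈ L, M i j = 2 ∨ M i j = 0

theorem exists_mix {L : Set B} (h : ∀ i, i ∉ L → ∀ j ∈ L, M i j = 2 ∨ M i j = 0) :
    ∃ χ : W →* ℤˣ, Mix cs L χ := by
  obtain ⟨χ, h1, h2⟩ := Pool.Agent.H26.SD.exists_chi cs L (fun i hi j hj => by
    rcases h i hi j hj with h | h <;> rw [h]
    · exact even_two
    · exact Even.zero)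
  exact ⟨χ, h1, h2, h⟩

theorem rc {t : W} (ht : cs.IsReflection t) (a : W) : cs.IsReflection (a⁻¹ * t * a) := by
  have := ht.conj a⁻¹
  rwa [inv_inv] at this

theorem inv_simple_iff {i : B} {t : W} : cs.IsLeftInversion (cs.simple i) t ↔ t = cs.simple i := by
  constructor
  · intro h
    have h1 := h.2
    rw [cs.length_simple] at h1
    have h2 : cs.length (t * cs.simple i) = 0 := by omega
    rw [cs.length_eq_zero_iff] at h2
    rw [eq_inv_of_mul_eq_one_left h2, cs.inv_simple]
  · rintro rfl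
    exact (cs.isLeftInversion_simple_iff_isLeftDescent _ _).2 (by
      unfold CoxeterSystem.IsLeftDescent
      rw [cs.simple_mul_simple_self, cs.length_one, cs.length_simple]
      exact one_pos)

theorem not_inv_one (t : W) : ¬ cs.IsLeftInversion 1 t := by
  intro h
  have := h.2
  rw [cs.length_one] at this
  omega

theorem inv_smul_iff {t : W} (ht : cs.IsReflection t) (i : B) (x : W) :
    cs.IsLeftInversion (cs.simple i * x) t ↔
      ¬ (t = cs.simple i ↔ cs.IsLeftInversion x (cs.simple i * t * cs.simple i)) := by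
  rw [inv_mul_iff cs ht, inv_simple_iff, cs.inv_simple]

theorem inv_muls_iff {t : W} (ht : cs.IsReflection t) (i : B) (x : W) :
    cs.IsLeftInversion (x * cs.simple i) t ↔
      ¬ (cs.IsLeftInversion x t ↔ x⁻¹ * t * x = cs.simple i) := by
  rw [inv_mul_iff cs ht, inv_simple_iff]

/-- inversions of the inverse -/
theorem inv_inv_iff {t : W} (x : W) :
    cs.IsLeftInversion x⁻¹ t ↔ cs.IsLeftInversion x (x * t * x⁻¹) := by
  unfold CoxeterSystem.IsLeftInversion
  rw [cs.isReflection_conj_iff]
  refine and_congr_right fun ht => ?_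
  rw [cs.length_inv]
  have e : x * t * x⁻¹ * x = (t * x⁻¹)⁻¹ := by
    rw [mul_inv_rev, ht.inv]
    group
  rw [e, cs.length_inv]

/-- left multiplication by `b` of an inversion of the other type -/
theorem inv_smul_ne {t : W} (ht : cs.IsReflection t) {i : B} (h : t ≠ cs.simple i) (x : W) :
    cs.IsLeftInversion (cs.simple i * x) t ↔
      cs.IsLeftInversion x (cs.simple i * t * cs.simple i) := by
  rw [inv_smul_iff cs ht]
  tauto

theorem conj_ne {i : B} {t : W} (h : t ≠ cs.simple i) :
    cs.simple i * t * cs.simple i ≠ cs.simple i := by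
  intro h2
  apply h
  calc t = cs.simple i * (cs.simple i * t * cs.simple i) * cs.simple i := by
        rw [mul_assoc, mul_assoc, mul_assoc, cs.simple_mul_simple_self, mul_one, ← mul_assoc,
          cs.simple_mul_simple_self, one_mul]
    _ = cs.simple i := by rw [h2]; simp

theorem conj_conj {i : B} (t : W) :
    cs.simple i * (cs.simple i * t * cs.simple i) * cs.simple i = t := by
  rw [mul_assoc, mul_assoc, mul_assoc, cs.simple_mul_simple_self, mul_one, ← mul_assoc,
    cs.simple_mul_simple_self, one_mul]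

/-- `N(u)` does not meet `W_L` if `u` has no left descent in `L` -/
theorem not_inv_of_min {L : Set B} {u : W} (hu : ∀ i ∈ L, ¬ cs.IsLeftDescent u i) {t : W}
    (ht : t ∈ WP cs L) : ¬ cs.IsLeftInversion u t := by
  intro h
  have h1 := length_mul_of_min_left cs hu ht
  have h2 := h.2
  omega

private theorem Basic_wordProd_mem {L : Set B} {ω : List B} (h : ∀ i ∈ ω, i ∈ L) :
    cs.wordProd ω ∈ WP cs L := by
  induction ω with
  | nil =>
    rw [cs.wordProd_nil]
    exact one_mem _
  | cons i ω ih =>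
    rw [cs.wordProd_cons]
    exact mul_mem ((simple_mem_WP_iff cs).2 (h i List.mem_cons_self))
      (ih fun j hj => h j (List.mem_cons_of_mem _ hj))

/-- `N(g) ⊆ W_L` for `g ∈ W_L` -/
theorem mem_WP_of_inv {L : Set B} {g t : W} (hg : g ∈ WP cs L) (h : cs.IsLeftInversion g t) :
    t ∈ WP cs L := by
  obtain ⟨ω, hω, hgω, hL⟩ := exists_reduced_word_mem cs (Subgroup.inv_mem _ hg)
  have h1 : cs.IsRightInversion g⁻¹ t := cs.isRightInversion_inv_iff.2 h
  have h2 := h1.2
  rw [hgω] at h2
  obtain ⟨j, hj, h3⟩ := strong_exchange cs h.1 h2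
  rw [← hgω] at h3
  have h4 : cs.wordProd (ω.eraseIdx j) ∈ WP cs L :=
    Basic_wordProd_mem cs (fun i hi => hL i (List.mem_of_mem_eraseIdx hi))
  have h5 : t = g * cs.wordProd (ω.eraseIdx j) := by
    rw [← h3, mul_inv_cancel_left]
  rw [h5]
  exact mul_mem hg h4

variable {L : Set B} {χ : W →* ℤˣ}

theorem Mix.chi_mem (hM : Mix cs L χ) {g : W} (hg : g ∈ WP cs L) : χ g = 1 := by
  unfold WP at hg
  induction hg using Subgroup.closure_induction with
  | mem x hx =>
    obtain ⟨i, hi, rfl⟩ := hx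
    exact hM.one i hi
  | one => exact map_one χ
  | mul x y hx hy ihx ihy => rw [map_mul, ihx, ihy, one_mul]
  | inv x hx ihx => rw [map_inv, ihx, inv_one]

theorem chi_conj (χ : W →* ℤˣ) (a t : W) : χ (a * t * a⁻¹) = χ t := by
  rw [map_mul, map_mul, map_inv, mul_comm (χ a), mul_inv_cancel_right]

theorem chi_conj' (χ : W →* ℤˣ) (a t : W) : χ (a⁻¹ * t * a) = χ t := by
  rw [map_mul, map_mul, map_inv, mul_comm (χ a)⁻¹, inv_mul_cancel_right]

theorem Mix.mem_of_chi (hM : Mix cs L χ) {i : B} (h : χ (cs.simple i) = 1) : i ∈ L := by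
  by_contra hn
  rw [hM.neg i hn] at h
  exact absurd h (by decide)

theorem Mix.notMem_of_chi (hM : Mix cs L χ) {i : B} (h : χ (cs.simple i) = -1) : i ∉ L := by
  intro hn
  rw [hM.one i hn] at h
  exact absurd h (by decide)

theorem ne_of_chi {a b : W} (ha : χ a = 1) (hb : χ b = -1) : a ≠ b := by
  rintro rfl
  rw [ha] at hb
  exact absurd hb (by decide)

/-- no inversion of type `R` of `g ∈ W_L` -/
theorem Mix.not_inv_of_mem (hM : Mix cs L χ) {g ρ : W} (hg : g ∈ WP cs L) (hρ : χ ρ = -1) :
    ¬ cs.IsLeftInversion g ρ := by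
  intro h
  exact ne_of_chi (hM.chi_mem cs (mem_WP_of_inv cs hg h)) hρ rfl

/-- the inversions of type `R` of `x g`, `g ∈ W_L` -/
theorem Mix.inv_mul_mem (hM : Mix cs L χ) {x g ρ : W} (hg : g ∈ WP cs L) (hρ : cs.IsReflection ρ)
    (hχ : χ ρ = -1) : cs.IsLeftInversion (x * g) ρ ↔ cs.IsLeftInversion x ρ := by
  rw [inv_mul_iff cs hρ]
  have h1 := hM.not_inv_of_mem cs hg (ρ := x⁻¹ * ρ * x) (by rw [chi_conj', hχ])
  tauto

/-- the inversions of type `R` of `g x`, `g ∈ W_L` -/
theorem Mix.inv_mem_mul (hM : Mix cs L χ) {x g ρ : W} (hg : g ∈ WP cs L) (hρ : cs.IsReflection ρ)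
    (hχ : χ ρ = -1) : cs.IsLeftInversion (g * x) ρ ↔ cs.IsLeftInversion x (g⁻¹ * ρ * g) := by
  rw [inv_mul_iff cs hρ]
  have h1 := hM.not_inv_of_mem cs hg hχ
  tauto

/-- an element without inversions of type `R` is in `W_L`; moreover for `w ∉ W_L` there is an inversion
`l b l⁻¹` with `l ∈ W_L`, `b ∉ L` -/
theorem Mix.exists_inv (hM : Mix cs L χ) {w : W} (hw : w ∉ WP cs L) :
    ∃ l ∈ WP cs L, ∃ b, b ∉ L ∧ cs.IsLeftInversion w (l * cs.simple b * l⁻¹) := by
  obtain ⟨l, u, hu, hl, rfl⟩ := exists_min_left cs L w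
  have hu1 : u ≠ 1 := by
    rintro rfl
    rw [mul_one] at hw
    exact hw hl
  obtain ⟨b, hb⟩ := cs.exists_leftDescent_of_ne_one hu1
  have hbL : b ∉ L := fun h => hu b h hb
  refine ⟨l, hl, b, hbL, ?_⟩
  rw [hM.inv_mem_mul cs hl ((cs.isReflection_simple b).conj l) (by rw [chi_conj, hM.neg b hbL])]
  have e : l⁻¹ * (l * cs.simple b * l⁻¹) * l = cs.simple b := by group
  rw [e]
  exact (cs.isLeftInversion_simple_iff_isLeftDescent _ _).2 hb

/-- `W_K` commutes with `b` if all labels are `2` -/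
theorem comm_of_two {K : Set B} {b : B} (h : ∀ i ∈ K, M b i = 2) {g : W} (hg : g ∈ WP cs K) :
    cs.simple b * g = g * cs.simple b := by
  have hs : ∀ i ∈ K, Commute (cs.simple b) (cs.simple i) := by
    intro i hi
    have h1 := cs.simple_mul_simple_pow b i
    rw [h i hi, pow_two] at h1
    have h2 := eq_inv_of_mul_eq_one_left h1
    rw [mul_inv_rev, cs.inv_simple, cs.inv_simple] at h2
    exact h2
  unfold WP at hg
  have : Commute (cs.simple b) g := by
    induction hg using Subgroup.closure_induction with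
    | mem x hx =>
      obtain ⟨i, hi, rfl⟩ := hx
      exact hs i hi
    | one => exact Commute.one_right _
    | mul x y hx hy ihx ihy => exact ihx.mul_right ihy
    | inv x hx ihx => exact ihx.inv_right
  exact this

/-- (1) -/
theorem Mix.comm_of_descent (hM : Mix cs L χ) {l u : W} (hl : l ∈ WP cs L)
    (hu : ∀ i ∈ L, ¬ cs.IsLeftDescent u i) {b : B} (hb : b ∉ L) (h : cs.IsLeftDescent (l * u) b) :
    cs.simple b * l = l * cs.simple b := by
  obtain ⟨k, z, hz, hk, rfl⟩ := exists_min_left cs {i | i ∈ L ∧ M b i = 2} l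
  have hkL : k ∈ WP cs L := WP_mono cs (fun i hi => hi.1) hk
  have hkb : cs.simple b * k = k * cs.simple b := comm_of_two cs (fun i hi => hi.2) hk
  have hzL : z ∈ WP cs L := by
    have := mul_mem (inv_mem hkL) hl
    rwa [inv_mul_cancel_left] at this
  have h1 : cs.IsLeftInversion (k * (z * u)) (cs.simple b) := by
    rw [← mul_assoc]
    exact (cs.isLeftInversion_simple_iff_isLeftDescent _ _).2 h
  rw [hM.inv_mem_mul cs hkL (cs.isReflection_simple b) (hM.neg b hb)] at h1
  have e : k⁻¹ * cs.simple b * k = cs.simple b := by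
    rw [mul_assoc, hkb, inv_mul_cancel_left]
  rw [e, cs.isLeftInversion_simple_iff_isLeftDescent] at h1
  have hz1 : z = 1 := by
    by_contra hne
    obtain ⟨s, hs⟩ := cs.exists_leftDescent_of_ne_one hne
    have hsL : s ∈ L := left_descent_mem cs hzL hs
    have h2 : cs.IsLeftDescent (z * u) s := by
      unfold CoxeterSystem.IsLeftDescent at hs ⊢
      have h3 := length_mul_of_min_left cs hu hzL
      have h4 := length_mul_of_min_left cs hu
        (mul_mem ((simple_mem_WP_iff cs).2 hsL : cs.simple s ∈ WP cs L) hzL)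
      rw [← mul_assoc]
      omega
    have hbs : b ≠ s := fun h => hb (h ▸ hsL)
    have h3 := (two_left_descents cs hbs h1 h2).1
    have h4 : M b s = 2 := by
      rcases hM.lab b hb s hsL with h | h
      · exact h
      · exact absurd h h3
    exact hz s ⟨hsL, h4⟩ hs
  rw [hz1, mul_one, hkb]

end Pool.Agent.H73.HM
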