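import Pool.Agent.H73.HM.Level
import Pool.Agent.H73.HVN.EA
import Pool.Agent.H73.HVN.Trunc
import Pool.Agent.H73.HVN.Conv

/-!
# Project HM, module Final: the Haagerup property

The maps are `E_A ∘ ∏_{b ∈ A, b ∉ L} Φ_b ∘ Ψ`, with `Φ_b` the map with multiplier `ρ ^ N_b(w)` and `Ψ` the map
with multiplier `ρ ^ |w|_L`.
-/

set_option autoImplicit false

open scoped ComplexOrder InnerProductSpace
open Filter Topology

namespace Pool.Agent.H73.HM

open Pool.Agent.H73.HVN Pool.Agent.H26.HR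

universe u v

variable {B : Type v} {W : Type u} [Group W] {M : CoxeterMatrix B} (cs : CoxeterSystem M W)
variable {L : Set B} {χ : W →* ℤˣ}

/-- the finite set of all generators in `F` -/
private noncomputable def fA (F : Finset W) : Finset B :=
  F.preimage cs.simple (simple_injective cs).injOn

private theorem mem_fA {F : Finset W} {b : B} : b ∈ fA cs F ↔ cs.simple b ∈ F := by
  unfold fA
  exact Finset.mem_preimage

open Classical in
/-- the generators in `F` outside `L` -/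
private noncomputable def fR (L : Set B) (F : Finset W) : Finset B := (fA cs F).filter (· ∉ L)

/-- `ρ_k` -/
private noncomputable def fr (k : ℕ) : ℝ := 1 - 1 / ((k : ℝ) + 2)

private theorem fr_pos (k : ℕ) : 0 < fr k := by
  unfold fr
  have hk : (0 : ℝ) ≤ k := Nat.cast_nonneg k
  have h2 : 1 / ((k : ℝ) + 2) < 1 := by
    rw [div_lt_one (by linarith)]
    linarith
  linarith

private theorem fr_lt (k : ℕ) : fr k < 1 := by
  unfold fr
  have hk : (0 : ℝ) ≤ k := Nat.cast_nonneg k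
  have h2 : 0 < 1 / ((k : ℝ) + 2) := by positivity
  linarith

private theorem fr_tendsto : Tendsto fr atTop (𝓝 1) := by
  have h1 : Tendsto (fun k : ℕ => ((k : ℝ) + 2)) atTop atTop :=
    tendsto_atTop_add_const_right _ _ tendsto_natCast_atTop_atTop
  have h2 : Tendsto (fun k : ℕ => 1 / ((k : ℝ) + 2)) atTop (𝓝 0) := by
    simp only [one_div]
    exact tendsto_inv_atTop_zero.comp h1
  have h3 := (tendsto_const_nhds (x := (1 : ℝ)) (f := (atTop : Filter ℕ))).sub h2
  rw [sub_zero] at h3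
  exact h3

omit [Group W] in
private theorem snd_tendsto : Tendsto (fun i : Finset W × ℕ => i.2) atTop atTop := by
  classical
  rw [← Filter.prod_atTop_atTop_eq]
  exact Filter.tendsto_snd

/-- powers of `ρ_k` tend to `1` -/
private theorem pow_tendsto (m : ℕ) :
    Tendsto (fun i : Finset W × ℕ => ((fr i.2 ^ m : ℝ) : ℂ)) atTop (𝓝 1) := by
  have h3 : Tendsto (fun i : Finset W × ℕ => fr i.2 ^ m) atTop (𝓝 1) := by
    have h4 := (fr_tendsto.comp (snd_tendsto (W := W))).pow m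
    simpa using h4
  have h5 := (Complex.continuous_ofReal.tendsto (1 : ℝ)).comp h3
  simpa [Function.comp_def] using h5

/-- the multiplier -/
private noncomputable def cH (χ : W →* ℤˣ) (L : Set B) (i : Finset W × ℕ) (w : W) : ℂ :=
  (open Classical in if w ∈ WP cs (fA cs i.1 : Set B) then (1 : ℂ) else 0) *
    ((∏ b ∈ fR cs L i.1, ((fr i.2 ^ (NN cs b w) : ℝ) : ℂ)) * ((fr i.2 ^ (nu cs χ w) : ℝ) : ℂ))

private theorem cH_lim (χ : W →* ℤˣ) (L : Set B) (w : W) :
    Tendsto (fun i : Finset W × ℕ => cH cs χ L i w) atTop (𝓝 1) := by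
  classical
  obtain ⟨A₀, hA₀⟩ := exists_finset_mem_WP cs w
  have h1 : Tendsto (fun i : Finset W × ℕ =>
      (∏ b ∈ A₀.filter (· ∉ L), ((fr i.2 ^ (NN cs b w) : ℝ) : ℂ)) *
        ((fr i.2 ^ (nu cs χ w) : ℝ) : ℂ)) atTop (𝓝 1) := by
    have h6 := tendsto_finsetProd (A₀.filter (· ∉ L))
      (fun b _ => pow_tendsto (W := W) (NN cs b w))
    have h7 := h6.mul (pow_tendsto (W := W) (nu cs χ w))
    simpa using h7
  refine h1.congr' ?_
  filter_upwards [eventually_ge_atTop ((A₀.image cs.simple, 0) : Finset W × ℕ)] with i hi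
  unfold cH
  have hsub : A₀ ⊆ fA cs i.1 := by
    intro b hb
    rw [mem_fA]
    exact hi.1 (Finset.mem_image_of_mem _ hb)
  have hw : w ∈ WP cs (fA cs i.1 : Set B) :=
    WP_mono cs (by exact_mod_cast hsub) hA₀
  rw [if_pos hw, one_mul]
  congr 1
  refine Finset.prod_subset ?_ ?_
  · intro b hb
    rw [Finset.mem_filter] at hb
    exact Finset.mem_filter.2 ⟨hsub hb.1, hb.2⟩
  · intro b hb hb2
    have hb' : b ∉ A₀ := fun h => hb2 (Finset.mem_filter.2 ⟨h, (Finset.mem_filter.1 hb).2⟩)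
    have h0 : NN cs b w = 0 :=
      NN_eq_zero_of_notMem cs (A := (A₀ : Set B)) (by exact_mod_cast hb') hA₀
    rw [h0]
    simp

private theorem cH_eq (χ : W →* ℤˣ) (L : Set B) (i : Finset W × ℕ) {w : W}
    (hw : w ∈ WP cs (fA cs i.1 : Set B)) :
    cH cs χ L i w = ((fr i.2 ^ (∑ b ∈ fR cs L i.1, NN cs b w + nu cs χ w) : ℝ) : ℂ) := by
  unfold cH
  rw [if_pos hw, one_mul, ← Complex.ofReal_prod, Finset.prod_pow_eq_pow_sum, ← Complex.ofReal_mul,
    ← pow_add]

private theorem norm_cH (χ : W →* ℤˣ) (L : Set B) (i : Finset W × ℕ) (w : W) :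
    ‖cH cs χ L i w‖ ≤ 1 := by
  by_cases hw : w ∈ WP cs (fA cs i.1 : Set B)
  · rw [cH_eq cs χ L i hw, Complex.norm_real, Real.norm_of_nonneg (pow_nonneg (fr_pos _).le _)]
    exact pow_le_one₀ (fr_pos _).le (fr_lt _).le
  · unfold cH
    rw [if_neg hw, zero_mul, norm_zero]
    exact zero_le_one

private theorem cH_one (χ : W →* ℤˣ) (L : Set B) (i : Finset W × ℕ) : cH cs χ L i 1 = 1 := by
  rw [cH_eq cs χ L i (one_mem _)]
  simp [NN_one, nu_one]

private theorem finite_cH (hMx : Mix cs L χ) (hFC : FCout cs L) (i : Finset W × ℕ) {ε : ℝ}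
    (hε : 0 < ε) : {w | ε ≤ ‖cH cs χ L i w‖}.Finite := by
  classical
  obtain ⟨n, hn⟩ := exists_pow_lt_of_lt_one hε (fr_lt i.2)
  refine (hMx.finite_level cs hFC (fA cs i.1) n).subset ?_
  intro w hw
  have hw' : ε ≤ ‖cH cs χ L i w‖ := hw
  by_cases hWP : w ∈ WP cs (fA cs i.1 : Set B)
  · refine ⟨hWP, ?_⟩
    by_contra hlt
    rw [not_le] at hlt
    rw [cH_eq cs χ L i hWP, Complex.norm_real,
      Real.norm_of_nonneg (pow_nonneg (fr_pos _).le _)] at hw'
    have h1 : fr i.2 ^ (∑ b ∈ fR cs L i.1, NN cs b w + nu cs χ w) ≤ fr i.2 ^ n := by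
      refine pow_le_pow_of_le_one (fr_pos _).le (fr_lt _).le ?_
      unfold fR
      convert hlt.le
    linarith
  · exfalso
    unfold cH at hw'
    rw [if_neg hWP, zero_mul, norm_zero] at hw'
    linarith

private theorem exists_H (hMx : Mix cs L χ) {q : B → ℝ} (hq : Admissible cs q)
    (hL : ∀ i ∈ L, q i = 1) (i : Finset W × ℕ) :
    ∃ Φ : HA cs q →ₗ[ℂ] HA cs q, IsNormalMap (HA cs q) Φ ∧ IsCP (HA cs q) Φ ∧
      IsMult cs q Φ (cH cs χ L i) := by
  obtain ⟨Φ₁, h1n, -, h1m, h1p⟩ := exists_prod cs (q := q) True (fR cs L i.1) (fun _ => 1)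
    (fun b w => ((fr i.2 ^ NN cs b w : ℝ) : ℂ)) (fun b _ => by
      obtain ⟨Φ, hn, hc, hm, hp⟩ := exists_phi cs hq b (fr_pos i.2) (fr_lt i.2)
      exact ⟨Φ, hn, hc, hm, fun _ => hp⟩)
  obtain ⟨Φ₂, h2n, -, h2m, h2p⟩ := exists_EA cs hq (fA cs i.1 : Set B)
  obtain ⟨Φ₃, h3n, -, h3m, h3p⟩ := hMx.exists_psi cs hq hL (fr_pos i.2) (fr_lt i.2)
  refine ⟨Φ₂ ∘ₗ (Φ₁ ∘ₗ Φ₃), h2n.comp (h1n.comp h3n), h2p.comp ((h1p trivial).comp h3p), ?_⟩
  exact IsMult.comp cs h2m (IsMult.comp cs h1m h3m)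

theorem haagerup_mixed {q : B → ℝ} (hq : Admissible cs q) (hL : ∀ i ∈ L, q i = 1)
    (hlab : ∀ i, i ∉ L → ∀ j ∈ L, M i j = 2 ∨ M i j = 0) (hFC : FCout cs L) :
    HasHaagerupProperty (HA cs q) (δ 1) := by
  classical
  obtain ⟨χ, hMx⟩ := exists_mix cs hlab
  choose Φ hn hp hm using exists_H cs hMx hq hL
  refine ⟨Finset W × ℕ, inferInstance, inferInstance, inferInstance, Φ, ?_, ?_⟩
  · intro i
    refine ⟨hn i, hp i, ?_, ?_⟩
    · intro x _
      rw [inner_δ, inner_δ, hm i x 1, cH_one, one_mul]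
    · refine ⟨wop (Equiv.refl W) (cH cs χ L i),
        isCompactOperator_wop (fun ε hε => finite_cH cs hMx hFC i hε), ?_⟩
      intro x
      ext w
      rw [wop_apply (Equiv.refl W) (cH cs χ L i) (norm_cH cs χ L i), hm i x w, Equiv.refl_apply]
  · intro x
    exact tendsto_mult cs hm (norm_cH cs χ L) (cH_lim cs χ L) x

end Pool.Agent.H73.HM
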