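import Pool.Agent.H73.HM.Quad

/-!
# Project HM, module Gate: gates of intersections of half-spaces of type `L`
-/

set_option autoImplicit false

namespace Pool.Agent.H73.HM

open Pool.Agent.H73.HVN Pool.Agent.H26.HR

universe u v

variable {B : Type v} {W : Type u} [Group W] {M : CoxeterMatrix B} (cs : CoxeterSystem M W)
variable {L : Set B} {χ : W →* ℤˣ}

/-- the wall of `t` separates `c` and `x` -/
def Sep (c x t : W) : Prop := ¬ (cs.IsLeftInversion c t ↔ cs.IsLeftInversion x t)

theorem sep_iff {t : W} (ht : cs.IsReflection t) (c x : W) :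
    Sep cs c x t ↔ cs.IsLeftInversion (c⁻¹ * x) (c⁻¹ * t * c) := by
  have h := inv_mul_iff cs ht c (c⁻¹ * x)
  rw [mul_inv_cancel_left] at h
  unfold Sep
  tauto

/-- (4) -/
theorem Mix.exists_single (hM : Mix cs L χ) {t : W} (ht : cs.IsReflection t) (htχ : χ t = 1) :
    ∃ e, cs.IsLeftInversion e t ∧ ∀ x, cs.IsLeftInversion x t → ∀ ρ, χ ρ = -1 →
      cs.IsLeftInversion e ρ → cs.IsLeftInversion x ρ := by
  classical
  have hex : ∃ n, ∃ e, cs.IsLeftInversion e t ∧ cs.length e = n := by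
    refine ⟨_, t, ⟨ht, ?_⟩, rfl⟩
    rw [ht.mul_self, cs.length_one]
    exact Nat.pos_of_ne_zero (fun h => by
      have := ht.odd_length
      rw [h] at this
      exact absurd this (by decide))
  obtain ⟨e, he, hn⟩ := Nat.find_spec hex
  have hmin : ∀ e', cs.IsLeftInversion e' t → cs.length e ≤ cs.length e' := by
    intro e' he'
    rw [hn]
    exact Nat.find_min' hex ⟨e', he', rfl⟩
  refine ⟨e, he, fun x hx ρ hρχ hρ => ?_⟩
  by_contra hxρ
  have he1 : e ≠ 1 := by
    rintro rfl
    exact not_inv_one cs t he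
  obtain ⟨i, hi⟩ := cs.exists_rightDescent_of_ne_one he1
  have hlt : cs.length (e * cs.simple i) < cs.length e := hi
  have hz : ¬ cs.IsLeftInversion (e * cs.simple i) t := by
    intro h
    have := hmin _ h
    omega
  have hte : e⁻¹ * t * e = cs.simple i := by
    rw [inv_muls_iff cs ht] at hz
    tauto
  have hz' : cs.IsLeftInversion (e * cs.simple i) ρ := by
    rw [inv_muls_iff cs hρ.1]
    have : e⁻¹ * ρ * e ≠ cs.simple i := by
      intro h
      rw [← hte] at h
      have h2 : ρ = t := mul_left_cancel (mul_right_cancel h)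
      rw [h2, htχ] at hρχ
      exact absurd hρχ (by decide)
    tauto
  have hc := hM.quad cs htχ hρχ hx hxρ he hρ hz hz'
  have hne : t ≠ ρ := ne_of_chi htχ hρχ
  have h1 : cs.IsLeftInversion (ρ * e) t := by
    rw [inv_mul_iff cs ht]
    have h2 : ρ⁻¹ * t * ρ = t := by
      rw [mul_assoc, hc, inv_mul_cancel_left]
    rw [h2]
    have h3 := not_inv_of_comm cs ht hρ.1 hne hc
    tauto
  have h2 := hmin _ h1
  have h3 := hρ.2
  omega

/-- (4) from a base chamber -/
theorem Mix.exists_single_from (hM : Mix cs L χ) {t : W} (ht : cs.IsReflection t) (htχ : χ t = 1)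
    (c : W) : ∃ e, Sep cs c e t ∧ ∀ x, Sep cs c x t → ∀ ρ, cs.IsReflection ρ → χ ρ = -1 →
      Sep cs c e ρ → Sep cs c x ρ := by
  obtain ⟨e, he, h⟩ := hM.exists_single cs (rc cs ht c) (by rw [chi_conj', htχ])
  refine ⟨c * e, ?_, fun x hx ρ hρ hρχ hs => ?_⟩
  · rw [sep_iff cs ht, inv_mul_cancel_left]
    exact he
  · rw [sep_iff cs hρ] at hs ⊢
    rw [inv_mul_cancel_left] at hs
    rw [sep_iff cs ht] at hx
    exact h _ hx _ (by rw [chi_conj', hρχ]) hs

/-- projection to a residue `c W_L` -/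
theorem exists_proj (L : Set B) (c x : W) : ∃ g ∈ WP cs L, ∀ t, cs.IsReflection t →
    c⁻¹ * t * c ∈ WP cs L → (cs.IsLeftInversion (c * g) t ↔ cs.IsLeftInversion x t) := by
  obtain ⟨l, u, hu, hl, h⟩ := exists_min_left cs L (c⁻¹ * x)
  refine ⟨l, hl, fun t ht hct => ?_⟩
  have hx : x = c * l * u := by rw [mul_assoc, ← h, mul_inv_cancel_left]
  have h1 : ¬ cs.IsLeftInversion u ((c * l)⁻¹ * t * (c * l)) := by
    apply not_inv_of_min cs hu
    have e : (c * l)⁻¹ * t * (c * l) = l⁻¹ * (c⁻¹ * t * c) * l := by group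
    rw [e]
    exact mul_mem (mul_mem (inv_mem hl) hct) hl
  rw [hx, inv_mul_iff cs ht (c * l) u]
  tauto

/-- a wall which does not cut the residue `c W_L` -/
theorem inv_uncut {t c g : W} (ht : cs.IsReflection t) (hc : c⁻¹ * t * c ∉ WP cs L)
    (hg : g ∈ WP cs L) : cs.IsLeftInversion (c * g) t ↔ cs.IsLeftInversion c t := by
  rw [inv_mul_iff cs ht]
  have h1 : ¬ cs.IsLeftInversion g (c⁻¹ * t * c) := fun h => hc (mem_WP_of_inv cs hg h)
  tauto

/-- (5) -/
theorem Mix.convex (hM : Mix cs L χ) {t c x e : W} (htχ : χ t = 1) (hc : cs.IsLeftInversion c t)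
    (hx : cs.IsLeftInversion x t) (he : ¬ cs.IsLeftInversion e t) (hu : e⁻¹ * t * e ∉ WP cs L) :
    ∃ ρ, cs.IsReflection ρ ∧ χ ρ = -1 ∧ Sep cs e c ρ ∧ Sep cs e x ρ := by
  obtain ⟨v, hv, h⟩ := hM.exists_single_from cs hc.1 htχ e
  have hvt : cs.IsLeftInversion v t := by
    unfold Sep at hv
    tauto
  have hn : e⁻¹ * v ∉ WP cs L := by
    intro hg
    have h1 := inv_uncut cs hc.1 hu hg
    rw [mul_inv_cancel_left] at h1
    exact he (h1.1 hvt)
  obtain ⟨l, hl, b, hb, hi⟩ := hM.exists_inv cs hn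
  set ρ := e * (l * cs.simple b * l⁻¹) * e⁻¹ with hρ
  have hρr : cs.IsReflection ρ := by
    rw [hρ]
    exact ((cs.isReflection_simple b).conj l).conj e
  have hρχ : χ ρ = -1 := by rw [hρ, chi_conj, chi_conj, hM.neg b hb]
  have hs : Sep cs e v ρ := by
    rw [sep_iff cs hρr]
    have e1 : e⁻¹ * ρ * e = l * cs.simple b * l⁻¹ := by rw [hρ]; group
    rw [e1]
    exact hi
  refine ⟨ρ, hρr, hρχ, ?_, ?_⟩
  · exact h c (by unfold Sep; tauto) ρ hρr hρχ hs
  · exact h x (by unfold Sep; tauto) ρ hρr hρχ hs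

/-- `c` is a gate of the intersection of the half-spaces beyond the walls of `A` -/
def Gate (χ : W →* ℤˣ) (A : Finset W) (c : W) : Prop :=
  (∀ t ∈ A, cs.IsLeftInversion c t) ∧ ∀ x, (∀ t ∈ A, cs.IsLeftInversion x t) →
    ∀ ρ, χ ρ = -1 → cs.IsLeftInversion c ρ → cs.IsLeftInversion x ρ

/-- correction of a chamber inside its residue -/
private theorem Gate_room (A : Finset W) {e x : W} (hx : ∀ t ∈ A, cs.IsLeftInversion x t)
    (he : ∀ t ∈ A, e⁻¹ * t * e ∉ WP cs L → cs.IsLeftInversion e t) :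
    ∃ g ∈ WP cs L, ∀ t ∈ A, cs.IsLeftInversion (e * g) t := by
  obtain ⟨g, hg, h⟩ := exists_proj cs L e x
  refine ⟨g, hg, fun t ht => ?_⟩
  by_cases hc : e⁻¹ * t * e ∈ WP cs L
  · exact (h t (hx t ht).1 hc).2 (hx t ht)
  · exact (inv_uncut cs (hx t ht).1 hc hg).2 (he t ht hc)

open Classical in
private theorem Gate_insert (hM : Mix cs L χ) {A : Finset W} {c t x : W} (hA : ∀ t ∈ A, χ t = 1)
    (htχ : χ t = 1) (hc : Gate cs χ A c) (hx : ∀ t' ∈ insert t A, cs.IsLeftInversion x t') :
    ∃ c', Gate cs χ (insert t A) c' := by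
  have hxt := hx t (Finset.mem_insert_self t A)
  have hxA : ∀ t' ∈ A, cs.IsLeftInversion x t' := fun t' h => hx t' (Finset.mem_insert_of_mem h)
  by_cases hct : cs.IsLeftInversion c t
  · refine ⟨c, ?_, fun y hy => hc.2 y fun t' h => hy t' (Finset.mem_insert_of_mem h)⟩
    intro t' ht'
    rcases Finset.mem_insert.1 ht' with rfl | h
    · exact hct
    · exact hc.1 t' h
  · obtain ⟨e, he, h⟩ := hM.exists_single_from cs hxt.1 htχ c
    have het : cs.IsLeftInversion e t := by
      unfold Sep at he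
      tauto
    have hsx : Sep cs c x t := by
      unfold Sep
      tauto
    have hcut : ∀ t' ∈ insert t A, e⁻¹ * t' * e ∉ WP cs L → cs.IsLeftInversion e t' := by
      intro t' ht' hu
      rcases Finset.mem_insert.1 ht' with rfl | h'
      · exact het
      · by_contra hne
        obtain ⟨ρ, hρ, hρχ, s1, s2⟩ := hM.convex cs (hA t' h') (hc.1 t' h') (hxA t' h') hne hu
        have s3 := h x hsx ρ hρ hρχ (by unfold Sep at s1 ⊢; tauto)
        unfold Sep at s1 s2 s3
        tauto
    obtain ⟨g, hg, hg2⟩ := Gate_room cs (insert t A) hx hcut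
    refine ⟨e * g, hg2, fun y hy ρ hρχ hρ => ?_⟩
    have hρe : cs.IsLeftInversion e ρ := (hM.inv_mul_mem cs hg hρ.1 hρχ).1 hρ
    by_cases hρc : cs.IsLeftInversion c ρ
    · exact hc.2 y (fun t' h => hy t' (Finset.mem_insert_of_mem h)) ρ hρχ hρc
    · have hyt := hy t (Finset.mem_insert_self t A)
      have s3 := h y (by unfold Sep; tauto) ρ hρ.1 hρχ (by unfold Sep; tauto)
      unfold Sep at s3
      tauto

/-- (6) -/
theorem Mix.exists_gate (hM : Mix cs L χ) (A : Finset W) (hA : ∀ t ∈ A, χ t = 1) {x : W}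
    (hx : ∀ t ∈ A, cs.IsLeftInversion x t) : ∃ c, Gate cs χ A c := by
  classical
  induction A using Finset.induction_on with
  | empty =>
    refine ⟨1, by simp, fun y _ ρ _ h => absurd h (not_inv_one cs ρ)⟩
  | insert t A htA ih =>
    obtain ⟨c, hc⟩ := ih (fun t' h => hA t' (Finset.mem_insert_of_mem h))
      (fun t' h => hx t' (Finset.mem_insert_of_mem h))
    exact Gate_insert cs hM (fun t' h => hA t' (Finset.mem_insert_of_mem h))
      (hA t (Finset.mem_insert_self t A)) hc hx

theorem Mix.gate_unique (hM : Mix cs L χ) {A : Finset W} {c c' : W} (h : Gate cs χ A c)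
    (h' : Gate cs χ A c') : c⁻¹ * c' ∈ WP cs L := by
  by_contra hn
  obtain ⟨l, hl, b, hb, hi⟩ := hM.exists_inv cs hn
  set ρ := c * (l * cs.simple b * l⁻¹) * c⁻¹ with hρ
  have hρr : cs.IsReflection ρ := by
    rw [hρ]
    exact ((cs.isReflection_simple b).conj l).conj c
  have hρχ : χ ρ = -1 := by rw [hρ, chi_conj, chi_conj, hM.neg b hb]
  have hs : Sep cs c c' ρ := by
    rw [sep_iff cs hρr]
    have e1 : c⁻¹ * ρ * c = l * cs.simple b * l⁻¹ := by rw [hρ]; group
    rw [e1]
    exact hi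
  exact hs ⟨h.2 c' h'.1 ρ hρχ, h'.2 c h.1 ρ hρχ⟩

/-- the gate of the empty set -/
theorem Mix.gate_empty (hM : Mix cs L χ) {c : W} (h : Gate cs χ ∅ c) : c ∈ WP cs L := by
  have h1 : Gate cs χ ∅ (1 : W) := ⟨by simp, fun y _ ρ _ h => absurd h (not_inv_one cs ρ)⟩
  have := hM.gate_unique cs h1 h
  rwa [inv_one, one_mul] at this

open Classical in
/-- (7), `s ∈ L`, the set `A + s` -/
theorem Mix.gate_insert_simple (hM : Mix cs L χ) {A : Finset W} {c x : W}
    {s : B} (hs : s ∈ L) (hc : Gate cs χ A c)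
    (hx : ∀ t ∈ insert (cs.simple s) A, cs.IsLeftInversion x t) :
    ∃ g ∈ WP cs L, Gate cs χ (insert (cs.simple s) A) (c * g) := by
  have hxs := hx _ (Finset.mem_insert_self (cs.simple s) A)
  have hxA : ∀ t' ∈ A, cs.IsLeftInversion x t' := fun t' h => hx t' (Finset.mem_insert_of_mem h)
  have hcut : ∀ t' ∈ insert (cs.simple s) A, c⁻¹ * t' * c ∉ WP cs L →
      cs.IsLeftInversion c t' := by
    intro t' ht' hu
    rcases Finset.mem_insert.1 ht' with rfl | h'
    · by_contra hne
      obtain ⟨ρ, hρ, hρχ, s1, s2⟩ := hM.convex cs (hM.one s hs) ((inv_simple_iff cs).2 rfl) hxs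
        hne hu
      have h1 : ¬ cs.IsLeftInversion (cs.simple s) ρ := by
        rw [inv_simple_iff]
        exact (ne_of_chi (hM.one s hs) hρχ).symm
      have h2 := hc.2 x hxA ρ hρχ
      unfold Sep at s1 s2
      tauto
    · exact hc.1 t' h'
  obtain ⟨g, hg, hg2⟩ := Gate_room cs (insert (cs.simple s) A) hx hcut
  refine ⟨g, hg, hg2, fun y hy ρ hρχ hρ => ?_⟩
  exact hc.2 y (fun t' h => hy t' (Finset.mem_insert_of_mem h)) ρ hρχ
    ((hM.inv_mul_mem cs hg hρ.1 hρχ).1 hρ)

open Classical in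
/-- the conjugate of a set of reflections by a generator -/
noncomputable def cj (i : B) (A : Finset W) : Finset W :=
  A.image (fun t => cs.simple i * t * cs.simple i)

theorem mem_cj {i : B} {A : Finset W} {t : W} :
    t ∈ cj cs i A ↔ cs.simple i * t * cs.simple i ∈ A := by
  classical
  unfold cj
  rw [Finset.mem_image]
  constructor
  · rintro ⟨t', ht', rfl⟩
    rwa [conj_conj]
  · intro h
    exact ⟨_, h, conj_conj cs t⟩

theorem cj_cj (i : B) (A : Finset W) : cj cs i (cj cs i A) = A := by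
  ext t
  rw [mem_cj, mem_cj, conj_conj]

theorem card_cj (i : B) (A : Finset W) : (cj cs i A).card = A.card := by
  classical
  unfold cj
  refine Finset.card_image_of_injective _ fun a b h => ?_
  exact mul_left_cancel (mul_right_cancel h)

theorem chi_simple_conj (χ : W →* ℤˣ) (i : B) (t : W) :
    χ (cs.simple i * t * cs.simple i) = χ t := by
  have := chi_conj χ (cs.simple i) t
  rwa [cs.inv_simple] at this

theorem refl_simple_conj {t : W} (ht : cs.IsReflection t) (i : B) :
    cs.IsReflection (cs.simple i * t * cs.simple i) := by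
  have := ht.conj (cs.simple i)
  rwa [cs.inv_simple] at this

/-- the half-spaces of `cj i A` -/
theorem mem_half {A : Finset W} {i : B} (hi : cs.simple i ∉ A) (x : W) :
    (∀ t ∈ cj cs i A, cs.IsLeftInversion (cs.simple i * x) t) ↔
      ∀ t ∈ A, cs.IsLeftInversion x t := by
  have key : ∀ t ∈ A, cs.IsReflection t →
      (cs.IsLeftInversion (cs.simple i * x) (cs.simple i * t * cs.simple i) ↔
        cs.IsLeftInversion x t) := by
    intro t ht htr
    have hne : t ≠ cs.simple i := fun h => hi (h ▸ ht)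
    rw [inv_smul_ne cs (refl_simple_conj cs htr i) (conj_ne cs hne), conj_conj]
  constructor
  · intro h t ht
    have h1 := h (cs.simple i * t * cs.simple i) (by rw [mem_cj, conj_conj]; exact ht)
    have htr : cs.IsReflection t := by
      have := refl_simple_conj cs h1.1 i
      rwa [conj_conj] at this
    exact (key t ht htr).1 h1
  · intro h t ht
    rw [mem_cj] at ht
    have h1 := h _ ht
    have := (key _ ht h1.1).2 h1
    rwa [conj_conj] at this

/-- (7), `s ∈ L` -/
theorem Mix.gate_cj (hM : Mix cs L χ) {A : Finset W} {c : W} {s : B} (hs : s ∈ L)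
    (hsA : cs.simple s ∉ A) (hc : Gate cs χ A c) : Gate cs χ (cj cs s A) (cs.simple s * c) := by
  refine ⟨(mem_half cs hsA c).2 hc.1, fun x hx ρ hρχ hρ => ?_⟩
  have hss := cs.simple_mul_simple_self s
  have hne : ρ ≠ cs.simple s := (ne_of_chi (hM.one s hs) hρχ).symm
  have h1 : ∀ t ∈ A, cs.IsLeftInversion (cs.simple s * x) t := by
    rw [← mem_half cs hsA, ← mul_assoc, hss, one_mul]
    exact hx
  rw [inv_smul_ne cs hρ.1 hne] at hρ
  have h2 := hc.2 _ h1 _ (by rw [chi_simple_conj, hρχ]) hρ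
  rw [inv_smul_ne cs hρ.1 (conj_ne cs hne), conj_conj] at h2
  exact h2

/-- all elements beyond a wall which is not orthogonal to the wall of `b ∉ L` are on the same side of
the wall of `b` -/
theorem Mix.same_side (hM : Mix cs L χ) {t x y : W} {b : B} (hb : b ∉ L) (htχ : χ t = 1)
    (hx : cs.IsLeftInversion x t) (hy : cs.IsLeftInversion y t)
    (hx' : ¬ cs.IsLeftInversion x (cs.simple b)) (hy' : cs.IsLeftInversion y (cs.simple b)) :
    t * cs.simple b = cs.simple b * t :=
  hM.quad cs htχ (hM.neg b hb) hx hx' hy hy'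
    (by rw [inv_simple_iff]; exact ne_of_chi htχ (hM.neg b hb)) ((inv_simple_iff cs).2 rfl)

/-- (7), `b ∉ L`, some `t ∈ A` does not commute with `b` -/
theorem Mix.gate_cj' (hM : Mix cs L χ) {A : Finset W} (hA : ∀ t ∈ A, χ t = 1) {c : W} {b : B}
    (hb : b ∉ L) (hc : Gate cs χ A c) {t : W} (ht : t ∈ A)
    (htb : t * cs.simple b ≠ cs.simple b * t) : Gate cs χ (cj cs b A) (cs.simple b * c) := by
  have hbA : cs.simple b ∉ A := fun h => ne_of_chi (hA _ h) (hM.neg b hb) rfl
  refine ⟨(mem_half cs hbA c).2 hc.1, fun x hx ρ hρχ hρ => ?_⟩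
  have hss := cs.simple_mul_simple_self b
  have h1 : ∀ t ∈ A, cs.IsLeftInversion (cs.simple b * x) t := by
    rw [← mem_half cs hbA, ← mul_assoc, hss, one_mul]
    exact hx
  have hxe : x = cs.simple b * (cs.simple b * x) := by rw [← mul_assoc, hss, one_mul]
  by_cases hρb : ρ = cs.simple b
  · subst hρb
    have h2 : ∀ y, cs.IsLeftInversion (cs.simple b * y) (cs.simple b) ↔
        ¬ cs.IsLeftInversion y (cs.simple b) := by
      intro y
      have e : cs.simple b * cs.simple b * cs.simple b = cs.simple b := by rw [hss, one_mul]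
      rw [inv_smul_iff cs (cs.isReflection_simple b), e]
      tauto
    rw [h2] at hρ
    rw [hxe, h2]
    intro h3
    exact htb (hM.same_side cs hb (hA t ht) (hc.1 t ht) (h1 t ht) hρ h3)
  · rw [inv_smul_ne cs hρ.1 hρb] at hρ
    have h2 := hc.2 _ h1 _ (by rw [chi_simple_conj, hρχ]) hρ
    rw [inv_smul_ne cs hρ.1 (conj_ne cs hρb), conj_conj] at h2
    exact h2

/-- (7), `b ∉ L`, all `t ∈ A` commute with `b` -/
theorem Mix.gate_comm (hM : Mix cs L χ) {A : Finset W} (hA : ∀ t ∈ A, χ t = 1) {c : W} {b : B}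
    (hb : b ∉ L) (hc : Gate cs χ A c) (h : ∀ t ∈ A, t * cs.simple b = cs.simple b * t) :
    ¬ cs.IsLeftInversion c (cs.simple b) ∧
      ∃ g ∈ WP cs L, ∃ b', b' ∉ L ∧ c⁻¹ * cs.simple b * c = g * cs.simple b' * g⁻¹ := by
  have hss := cs.simple_mul_simple_self b
  have hbA : cs.simple b ∉ A := fun h => ne_of_chi (hA _ h) (hM.neg b hb) rfl
  have hcj : cj cs b A = A := by
    ext t
    rw [mem_cj]
    constructor
    · intro h1
      have h2 := h _ h1
      have h3 : cs.simple b * t * cs.simple b = t := by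
        have h4 : cs.simple b * t * cs.simple b * cs.simple b = t * cs.simple b := by
          rw [h2]
          simp only [← mul_assoc, hss, one_mul]
        exact mul_right_cancel h4
      rwa [h3] at h1
    · intro h1
      have h2 := h _ h1
      have h3 : cs.simple b * t * cs.simple b = t := by
        rw [← h2, mul_assoc, hss, mul_one]
      rwa [h3]
  have hbc : ∀ t ∈ A, cs.IsLeftInversion (cs.simple b * c) t := by
    have := (mem_half cs hbA c).2 hc.1
    rwa [hcj] at this
  have h2 : ∀ y, cs.IsLeftInversion (cs.simple b * y) (cs.simple b) ↔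
      ¬ cs.IsLeftInversion y (cs.simple b) := by
    intro y
    have e : cs.simple b * cs.simple b * cs.simple b = cs.simple b := by rw [hss, one_mul]
    rw [inv_smul_iff cs (cs.isReflection_simple b), e]
    tauto
  have hnb : ¬ cs.IsLeftInversion c (cs.simple b) := by
    intro h3
    have h4 := hc.2 _ hbc _ (hM.neg b hb) h3
    rw [h2] at h4
    exact h4 h3
  refine ⟨hnb, ?_⟩
  -- the inversions of type `R` of `c⁻¹ b c`
  have hw : c⁻¹ * cs.simple b * c ∉ WP cs L := by
    intro h3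
    have h4 := hM.chi_mem cs h3
    rw [chi_conj', hM.neg b hb] at h4
    exact absurd h4 (by decide)
  obtain ⟨l, hl, b', hb', hi⟩ := hM.exists_inv cs hw
  refine ⟨l, hl, b', hb', ?_⟩
  set ρ := c * (l * cs.simple b' * l⁻¹) * c⁻¹ with hρ
  have hρr : cs.IsReflection ρ := by
    rw [hρ]
    exact ((cs.isReflection_simple b').conj l).conj c
  have hρχ : χ ρ = -1 := by rw [hρ, chi_conj, chi_conj, hM.neg b' hb']
  have hs : Sep cs c (cs.simple b * c) ρ := by
    rw [sep_iff cs hρr]
    have e1 : c⁻¹ * ρ * c = l * cs.simple b' * l⁻¹ := by rw [hρ]; group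
    rw [e1, ← mul_assoc]
    exact hi
  have hρb : ρ = cs.simple b := by
    by_contra hne
    have h3 : ∀ ρ, cs.IsReflection ρ → χ ρ = -1 → ρ ≠ cs.simple b → cs.IsLeftInversion c ρ →
        cs.IsLeftInversion c (cs.simple b * ρ * cs.simple b) := by
      intro ρ hρr hρχ hne hi
      have h4 := hc.2 _ hbc ρ hρχ hi
      rwa [inv_smul_ne cs hρr hne] at h4
    apply hs
    rw [inv_smul_ne cs hρr hne]
    refine ⟨h3 ρ hρr hρχ hne, fun h4 => ?_⟩
    have h5 := h3 _ (refl_simple_conj cs hρr b) (by rw [chi_simple_conj, hρχ]) (conj_ne cs hne) h4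
    rwa [conj_conj] at h5
  calc c⁻¹ * cs.simple b * c = c⁻¹ * ρ * c := by rw [hρb]
    _ = l * cs.simple b' * l⁻¹ := by rw [hρ]; group

end Pool.Agent.H73.HM
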