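import Pool.Agent.H73.HM.Map
import Pool.Agent.H73.HVN.Growth

/-!
# Project HM, module Level: `|w|_L + ∑ N_b(w)` is proper on `W_A`, `A` finite

The lemmas on additive words are copied from `Pool/Agent/H73/HVN/Growth.lean` (they are private there).
-/

set_option autoImplicit false

namespace Pool.Agent.H73.HM

open Pool.Agent.H73.HVN Pool.Agent.H26.HR

universe u v

variable {B : Type v} {W : Type u} [Group W] {M : CoxeterMatrix B} (cs : CoxeterSystem M W)
variable {L : Set B} {χ : W →* ℤˣ}

/-- the number of letters of type `L` in a reduced word of `w` -/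
noncomputable def nu (χ : W →* ℤˣ) (w : W) : ℕ := (nl cs χ w⁻¹).card

theorem nu_one (χ : W →* ℤˣ) : nu cs χ 1 = 0 := by
  unfold nu
  rw [inv_one, nl_one, Finset.card_empty]

theorem Mix.nu_mul_notMem (hM : Mix cs L χ) {t : B} (ht : t ∉ L) (y : W) :
    nu cs χ (y * cs.simple t) = nu cs χ y := by
  unfold nu
  rw [mul_inv_rev, cs.inv_simple, hM.nl_bmul cs ht, card_cj]

theorem Mix.nu_mul_mem (hM : Mix cs L χ) {t : B} (ht : t ∈ L) {y : W}
    (h : ¬ cs.IsRightDescent y t) : nu cs χ (y * cs.simple t) = nu cs χ y + 1 := by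
  classical
  have h1 : cs.simple t ∉ nl cs χ y⁻¹ := by
    rw [mem_nl, ← rdesc_iff]
    exact fun h' => h h'.1
  unfold nu
  rw [mul_inv_rev, cs.inv_simple, hM.nl_smul cs ht h1, Finset.card_insert_of_notMem, card_cj]
  rw [mem_cj, cs.simple_mul_simple_self, one_mul]
  exact h1

theorem Mix.nu_mono (hM : Mix cs L χ) {t : B} {y : W} (h : ¬ cs.IsRightDescent y t) :
    nu cs χ y ≤ nu cs χ (y * cs.simple t) := by
  by_cases ht : t ∈ L
  · rw [hM.nu_mul_mem cs ht h]
    exact Nat.le_succ _
  · rw [hM.nu_mul_notMem cs ht]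

/-- additivity of the length along a word -/
private def AddW (y : W) (η : List B) : Prop :=
  cs.length (y * cs.wordProd η) = cs.length y + η.length

private theorem addW_append {y : W} {η₁ η₂ : List B} (h : AddW cs y (η₁ ++ η₂)) :
    AddW cs y η₁ ∧ AddW cs (y * cs.wordProd η₁) η₂ := by
  unfold AddW at *
  rw [cs.wordProd_append, ← mul_assoc, List.length_append] at h
  have h1 := cs.length_mul_le (y * cs.wordProd η₁) (cs.wordProd η₂)
  have h2 := cs.length_wordProd_le η₂
  have h3 := cs.length_mul_le y (cs.wordProd η₁)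
  have h4 := cs.length_wordProd_le η₁
  constructor <;> omega

private theorem addW_cons {y : W} {i : B} {η : List B} (h : AddW cs y (i :: η)) :
    ¬ cs.IsRightDescent y i ∧ AddW cs (y * cs.simple i) η := by
  have h' : AddW cs y ([i] ++ η) := h
  obtain ⟨h1, h2⟩ := addW_append cs h'
  unfold AddW at h1
  rw [cs.wordProd_singleton] at h1 h2
  refine ⟨?_, h2⟩
  unfold CoxeterSystem.IsRightDescent
  simp at h1
  omega

private theorem NN_mono_word (b : B) {y : W} {η : List B} (h : AddW cs y η) :
    NN cs b y ≤ NN cs b (y * cs.wordProd η) := by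
  induction η generalizing y with
  | nil => simp
  | cons t η ih =>
    obtain ⟨h1, h2⟩ := addW_cons cs h
    rw [cs.wordProd_cons, ← mul_assoc]
    exact (NN_mono cs h1).trans (ih h2)

private theorem nu_mono_word (hM : Mix cs L χ) {y : W} {η : List B} (h : AddW cs y η) :
    nu cs χ y ≤ nu cs χ (y * cs.wordProd η) := by
  induction η generalizing y with
  | nil => simp
  | cons t η ih =>
    obtain ⟨h1, h2⟩ := addW_cons cs h
    rw [cs.wordProd_cons, ← mul_assoc]
    exact (hM.nu_mono cs h1).trans (ih h2)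

private theorem nu_gain (hM : Mix cs L χ) {y : W} {η : List B} (h : AddW cs y η) {s : B}
    (hs : s ∈ η) (hsL : s ∈ L) : nu cs χ y + 1 ≤ nu cs χ (y * cs.wordProd η) := by
  obtain ⟨η₁, η₂, rfl⟩ := List.append_of_mem hs
  obtain ⟨h1, h2⟩ := addW_append cs h
  obtain ⟨h3, h4⟩ := addW_cons cs h2
  have h5 := nu_mono_word cs hM h1
  have h6 := nu_mono_word cs hM h4
  have h7 := hM.nu_mul_mem cs hsL h3
  rw [cs.wordProd_append, cs.wordProd_cons, ← mul_assoc, ← mul_assoc]
  omega

private theorem gain_of_mem {b : B} {y : W} {η : List B} (hy : y ∈ YY cs b) (h : AddW cs y η)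
    (hb : b ∈ η) : NN cs b y + 1 ≤ NN cs b (y * cs.wordProd η) := by
  induction η generalizing y with
  | nil => simp at hb
  | cons t η ih =>
    obtain ⟨h1, h2⟩ := addW_cons cs h
    rw [cs.wordProd_cons, ← mul_assoc]
    by_cases htb : t = b
    · subst htb
      rw [← NN_mul_b cs hy]
      exact NN_mono_word cs t h2
    · have hb' : b ∈ η := by
        rcases List.mem_cons.1 hb with h | h
        · exact absurd h.symm htb
        · exact h
      rw [← NN_mul_ne cs htb y]
      refine ih ?_ h2 hb'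
      by_cases hM : M b t = 0
      · by_contra hc
        refine no_desc_of_notMem_YY cs hc (o := t) hM ?_
        by_contra hd
        exact h1 ((cs.isRightDescent_iff_not_isRightDescent_mul).2 hd)
      · exact (YY_mul cs ⟨htb, hM⟩ y).2 hy

private theorem gain_of_split {b s : B} (hM : M b s = 0) {y : W} {η₁ η₂ : List B}
    (h : AddW cs y (η₁ ++ s :: η₂)) (hb : b ∈ η₂) :
    NN cs b y + 1 ≤ NN cs b (y * cs.wordProd (η₁ ++ s :: η₂)) := by
  obtain ⟨h1, h2⟩ := addW_append cs h
  obtain ⟨h3, h4⟩ := addW_cons cs h2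
  have hY : y * cs.wordProd η₁ * cs.simple s ∈ YY cs b := by
    by_contra hc
    refine no_desc_of_notMem_YY cs hc (o := s) hM ?_
    by_contra hd
    exact h3 ((cs.isRightDescent_iff_not_isRightDescent_mul).2 hd)
  have h5 := gain_of_mem cs hY h4 hb
  have h6 := NN_mono_word cs b h1
  have h7 := NN_mono cs (b := b) h3
  rw [cs.wordProd_append, cs.wordProd_cons, ← mul_assoc, ← mul_assoc]
  omega

private theorem gain_window {A : Finset B} {b s : B} (hbA : b ∈ A) (hsA : s ∈ A)
    (hM : M b s = 0) {y : W} {η : List B} (h : AddW cs y η) (hb : b ∈ η) (hs : s ∈ η) :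
    ∑ c ∈ A, NN cs c y + 1 ≤ ∑ c ∈ A, NN cs c (y * cs.wordProd η) := by
  have key : ∃ c ∈ A, NN cs c y < NN cs c (y * cs.wordProd η) := by
    obtain ⟨η₁, η₂, rfl⟩ := List.append_of_mem hs
    by_cases hb2 : b ∈ η₂
    · exact ⟨b, hbA, gain_of_split cs hM h hb2⟩
    · have hne : b ≠ s := by
        rintro rfl
        rw [M.diagonal] at hM
        exact one_ne_zero hM
      have hb1 : b ∈ η₁ := by
        rcases List.mem_append.1 hb with h' | h'
        · exact h'
        · rcases List.mem_cons.1 h' with h'' | h''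
          · exact absurd h'' hne
          · exact absurd h'' hb2
      obtain ⟨α, β, rfl⟩ := List.append_of_mem hb1
      have hMs : M s b = 0 := by rw [M.symmetric]; exact hM
      have he : α ++ b :: β ++ s :: η₂ = α ++ b :: (β ++ s :: η₂) := by simp
      rw [he] at h ⊢
      exact ⟨s, hsA, gain_of_split cs hMs h (by simp)⟩
  obtain ⟨c, hc, hlt⟩ := key
  exact Finset.sum_lt_sum (fun c _ => NN_mono_word cs c h) ⟨c, hc, hlt⟩

private theorem wordProd_mem_WP {L : Set B} {ω : List B} (h : ∀ i ∈ ω, i ∈ L) :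
    cs.wordProd ω ∈ WP cs L := by
  induction ω with
  | nil => simp
  | cons i ω ih =>
    rw [cs.wordProd_cons]
    refine (WP cs L).mul_mem ?_ (ih fun j hj => h j (List.mem_cons_of_mem _ hj))
    exact Subgroup.subset_closure ⟨i, h i List.mem_cons_self, rfl⟩

/-- the generators outside `L` are of type FC -/
def FCout (L : Set B) : Prop :=
  ∀ K : Finset B, (∀ i ∈ K, i ∉ L) → (∀ i ∈ K, ∀ j ∈ K, M i j ≠ 0) →
    Finite (Subgroup.closure (cs.simple '' (K : Set B)))

private theorem exists_bound (hFC : FCout cs L) (A : Finset B) :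
    ∃ c : ℕ, ∀ K ⊆ A, (∀ i ∈ K, i ∉ L) → (∀ i ∈ K, ∀ j ∈ K, M i j ≠ 0) →
      ∀ w ∈ WP cs (K : Set B), cs.length w ≤ c := by
  classical
  have h1 : ∀ K : Finset B, ∃ c : ℕ, (∀ i ∈ K, i ∉ L) → (∀ i ∈ K, ∀ j ∈ K, M i j ≠ 0) →
      ∀ w ∈ WP cs (K : Set B), cs.length w ≤ c := by
    intro K
    by_cases hKL : ∀ i ∈ K, i ∉ L
    · by_cases hK : ∀ i ∈ K, ∀ j ∈ K, M i j ≠ 0
      · have hfin : Finite (WP cs (K : Set B)) := hFC K hKL hK
        have hset : ((WP cs (K : Set B) : Subgroup W) : Set W).Finite := Set.toFinite _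
        obtain ⟨c, hc⟩ := (hset.image cs.length).bddAbove
        exact ⟨c, fun _ _ w hw => hc ⟨w, hw, rfl⟩⟩
      · exact ⟨0, fun _ h => absurd h hK⟩
    · exact ⟨0, fun h => absurd h hKL⟩
  choose f hf using h1
  refine ⟨A.powerset.sup f, fun K hKA hKL hK w hw => (hf K hKL hK w hw).trans ?_⟩
  exact Finset.le_sup (f := f) (Finset.mem_powerset.2 hKA)

open Classical in
private theorem sum_growth (hMx : Mix cs L χ) {A : Finset B} {c : ℕ}
    (hc : ∀ K ⊆ A, (∀ i ∈ K, i ∉ L) → (∀ i ∈ K, ∀ j ∈ K, M i j ≠ 0) →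
      ∀ w ∈ WP cs (K : Set B), cs.length w ≤ c)
    (k : ℕ) : ∀ (y : W) (η : List B), (∀ i ∈ η, i ∈ A) → AddW cs y η → k * (c + 1) ≤ η.length →
      ∑ b ∈ A.filter (· ∉ L), NN cs b y + nu cs χ y + k ≤
        ∑ b ∈ A.filter (· ∉ L), NN cs b (y * cs.wordProd η) + nu cs χ (y * cs.wordProd η) := by
  induction k with
  | zero =>
    intro y η _ h _
    have h1 : ∑ b ∈ A.filter (· ∉ L), NN cs b y ≤
        ∑ b ∈ A.filter (· ∉ L), NN cs b (y * cs.wordProd η) :=
      Finset.sum_le_sum fun b _ => NN_mono_word cs b h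
    have h2 := nu_mono_word cs hMx h
    omega
  | succ k ih =>
    intro y η hA h hlen
    have hsplit : η = η.take (c + 1) ++ η.drop (c + 1) := (List.take_append_drop _ _).symm
    have hlen' : c + 1 ≤ η.length := by
      have : (k + 1) * (c + 1) = k * (c + 1) + (c + 1) := by ring
      omega
    have htl : (η.take (c + 1)).length = c + 1 := by
      rw [List.length_take]; omega
    rw [hsplit] at h
    obtain ⟨h1, h2⟩ := addW_append cs h
    -- the window
    have hgain : ∑ b ∈ A.filter (· ∉ L), NN cs b y + nu cs χ y + 1 ≤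
        ∑ b ∈ A.filter (· ∉ L), NN cs b (y * cs.wordProd (η.take (c + 1))) +
          nu cs χ (y * cs.wordProd (η.take (c + 1))) := by
      by_cases hL : ∃ s ∈ η.take (c + 1), s ∈ L
      · obtain ⟨s, hs, hsL⟩ := hL
        have h3 : ∑ b ∈ A.filter (· ∉ L), NN cs b y ≤
            ∑ b ∈ A.filter (· ∉ L), NN cs b (y * cs.wordProd (η.take (c + 1))) :=
          Finset.sum_le_sum fun b _ => NN_mono_word cs b h1
        have h4 := nu_gain cs hMx h1 hs hsL
        omega
      · push Not at hL
        have hwin : ∃ b ∈ η.take (c + 1), ∃ s ∈ η.take (c + 1), M b s = 0 := by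
          by_contra hcon
          push Not at hcon
          have hK := hc (η.take (c + 1)).toFinset
            (fun i hi => hA i (List.mem_of_mem_take (List.mem_toFinset.1 hi)))
            (fun i hi => hL i (List.mem_toFinset.1 hi))
            (fun i hi j hj => hcon i (List.mem_toFinset.1 hi) j (List.mem_toFinset.1 hj))
            (cs.wordProd (η.take (c + 1)))
            (wordProd_mem_WP cs fun i hi => by simpa using hi)
          unfold AddW at h1
          have h3 := cs.length_mul_le y (cs.wordProd (η.take (c + 1)))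
          omega
        obtain ⟨b, hb, s, hs, hM⟩ := hwin
        have h3 := gain_window cs (A := A.filter (· ∉ L))
          (Finset.mem_filter.2 ⟨hA b (List.mem_of_mem_take hb), hL b hb⟩)
          (Finset.mem_filter.2 ⟨hA s (List.mem_of_mem_take hs), hL s hs⟩)
          hM h1 hb hs
        have h4 := nu_mono_word cs hMx h1
        omega
    have h4 := ih (y * cs.wordProd (η.take (c + 1))) (η.drop (c + 1))
      (fun i hi => hA i (List.mem_of_mem_drop hi)) h2 (by
        rw [List.length_drop]
        have : (k + 1) * (c + 1) = k * (c + 1) + (c + 1) := by ring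
        omega)
    have h5 : y * cs.wordProd η =
        y * cs.wordProd (η.take (c + 1)) * cs.wordProd (η.drop (c + 1)) := by
      conv_lhs => rw [hsplit]
      rw [cs.wordProd_append, ← mul_assoc]
    rw [h5]
    omega

open Classical in
theorem Mix.finite_level (hMx : Mix cs L χ) (hFC : FCout cs L) (A : Finset B) (n : ℕ) :
    {w | w ∈ WP cs (A : Set B) ∧
      ∑ b ∈ A.filter (· ∉ L), NN cs b w + nu cs χ w ≤ n}.Finite := by
  obtain ⟨c, hc⟩ := exists_bound cs hFC A
  have hfin : ((fun ω : List A => cs.wordProd (ω.map Subtype.val)) ''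
      {ω : List A | ω.length ≤ (n + 1) * (c + 1)}).Finite :=
    (List.finite_length_le A _).image _
  refine hfin.subset ?_
  rintro w ⟨hw, hn⟩
  obtain ⟨ω, hred, rfl, hA⟩ := exists_reduced_word_mem cs hw
  have hAdd : AddW cs 1 ω := by
    unfold AddW
    rw [one_mul, cs.length_one, zero_add]
    exact hred
  have hlt : ω.length < (n + 1) * (c + 1) := by
    by_contra hcon
    push Not at hcon
    have h := sum_growth cs hMx hc (n + 1) 1 ω (fun i hi => hA i hi) hAdd hcon
    rw [one_mul] at h
    omega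
  lift ω to List A using hA
  exact ⟨ω, by simpa using hlt.le, rfl⟩

end Pool.Agent.H73.HM
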