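import Pool.Agent.H73.HM.Gate
import Pool.Agent.H73.HVN.Kern
import Pool.Agent.H26.SD.Asm

/-!
# Project HM, module Map: the multiplier `r ^ (number of letters of L)` is completely positive
-/

set_option autoImplicit false

open scoped ComplexOrder InnerProductSpace
open Filter Topology

namespace Pool.Agent.H73.HM

open Pool.Agent.H73.HVN Pool.Agent.H26.HR

universe u v

variable {B : Type v} {W : Type u} [Group W] {M : CoxeterMatrix B} (cs : CoxeterSystem M W)
variable {L : Set B} {χ : W →* ℤˣ}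

theorem finite_nl (χ : W →* ℤˣ) (x : W) : {t | cs.IsLeftInversion x t ∧ χ t = 1}.Finite := by
  classical
  obtain ⟨ω, hω, rfl⟩ := cs.exists_isReduced x
  refine ((cs.leftInvSeq ω).toFinset.finite_toSet).subset ?_
  rintro t ⟨ht, _⟩
  rw [Finset.mem_coe, List.mem_toFinset]
  exact (mem_leftInvSeq_iff cs hω).2 ht

/-- the left inversions of type `L` -/
noncomputable def nl (χ : W →* ℤˣ) (x : W) : Finset W := (finite_nl cs χ x).toFinset

theorem mem_nl {x t : W} : t ∈ nl cs χ x ↔ cs.IsLeftInversion x t ∧ χ t = 1 := by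
  unfold nl
  rw [Set.Finite.mem_toFinset]
  rfl

theorem nl_one : nl cs χ 1 = ∅ := by
  ext t
  rw [mem_nl]
  constructor
  · rintro ⟨h, _⟩
    exact absurd h (not_inv_one cs t)
  · intro h
    simp at h

open Classical in
theorem Mix.nl_smul (hM : Mix cs L χ) {s : B} (hs : s ∈ L) {x : W} (h : cs.simple s ∉ nl cs χ x) :
    nl cs χ (cs.simple s * x) = insert (cs.simple s) (cj cs s (nl cs χ x)) := by
  have hns : ¬ cs.IsLeftInversion x (cs.simple s) := fun h' => h ((mem_nl cs).2 ⟨h', hM.one s hs⟩)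
  ext t
  rw [Finset.mem_insert, mem_cj, mem_nl, mem_nl, chi_simple_conj]
  by_cases hts : t = cs.simple s
  · subst hts
    have e : cs.simple s * cs.simple s * cs.simple s = cs.simple s := by
      rw [cs.simple_mul_simple_self, one_mul]
    rw [inv_smul_iff cs (cs.isReflection_simple s), e]
    have := hM.one s hs
    tauto
  · constructor
    · rintro ⟨h1, h2⟩
      exact Or.inr ⟨(inv_smul_ne cs h1.1 hts x).1 h1, h2⟩
    · rintro (h1 | ⟨h1, h2⟩)
      · exact absurd h1 hts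
      · have htr : cs.IsReflection t := by
          have := refl_simple_conj cs h1.1 s
          rwa [conj_conj] at this
        exact ⟨(inv_smul_ne cs htr hts x).2 h1, h2⟩

open Classical in
theorem nl_smul' {s : B} {x : W} (h : cs.simple s ∈ nl cs χ x) :
    nl cs χ (cs.simple s * x) = cj cs s ((nl cs χ x).erase (cs.simple s)) := by
  have hns : cs.IsLeftInversion x (cs.simple s) := ((mem_nl cs).1 h).1
  ext t
  rw [mem_cj, Finset.mem_erase, mem_nl, mem_nl, chi_simple_conj]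
  by_cases hts : t = cs.simple s
  · subst hts
    have e : cs.simple s * cs.simple s * cs.simple s = cs.simple s := by
      rw [cs.simple_mul_simple_self, one_mul]
    rw [inv_smul_iff cs (cs.isReflection_simple s), e]
    tauto
  · have h3 := conj_ne cs hts
    constructor
    · rintro ⟨h1, h2⟩
      exact ⟨h3, (inv_smul_ne cs h1.1 hts x).1 h1, h2⟩
    · rintro ⟨_, h1, h2⟩
      have htr : cs.IsReflection t := by
        have := refl_simple_conj cs h1.1 s
        rwa [conj_conj] at this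
      exact ⟨(inv_smul_ne cs htr hts x).2 h1, h2⟩

theorem Mix.nl_bmul (hM : Mix cs L χ) {b : B} (hb : b ∉ L) (x : W) :
    nl cs χ (cs.simple b * x) = cj cs b (nl cs χ x) := by
  ext t
  rw [mem_cj, mem_nl, mem_nl, chi_simple_conj]
  constructor
  · rintro ⟨h1, h2⟩
    exact ⟨(inv_smul_ne cs h1.1 (ne_of_chi h2 (hM.neg b hb)) x).1 h1, h2⟩
  · rintro ⟨h1, h2⟩
    have htr : cs.IsReflection t := by
      have := refl_simple_conj cs h1.1 b
      rwa [conj_conj] at this
    exact ⟨(inv_smul_ne cs htr (ne_of_chi h2 (hM.neg b hb)) x).2 h1, h2⟩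

open Classical in
/-- a gate -/
noncomputable def gc (χ : W →* ℤˣ) (A : Finset W) : W :=
  if h : ∃ c, Gate cs χ A c then h.choose else 1

theorem Mix.gate_gc (hM : Mix cs L χ) {A : Finset W} {x : W} (h : A ⊆ nl cs χ x) :
    Gate cs χ A (gc cs χ A) := by
  have h1 : ∃ c, Gate cs χ A c := hM.exists_gate cs A (fun t ht => ((mem_nl cs).1 (h ht)).2)
    (x := x) (fun t ht => ((mem_nl cs).1 (h ht)).1)
  unfold gc
  rw [dif_pos h1]
  exact h1.choose_spec

/-- right invariance under `W_L` -/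
def RInv (L : Set B) (X : W → W → ℂ) : Prop := ∀ g ∈ WP cs L, ∀ z y, X (z * g) (y * g) = X z y

theorem Mix.gc_eq (hM : Mix cs L χ) {A : Finset W} {x c : W} (h : A ⊆ nl cs χ x)
    (hc : Gate cs χ A c) {X : W → W → ℂ} (hX : RInv cs L X) (z y : W) :
    X (z * gc cs χ A) (y * gc cs χ A) = X (z * c) (y * c) := by
  have h1 := hM.gate_unique cs hc (hM.gate_gc cs h)
  have h2 := hX _ h1 (z * c) (y * c)
  have e : ∀ u : W, u * c * (c⁻¹ * gc cs χ A) = u * gc cs χ A := fun u => by group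
  rwa [e, e] at h2

/-- the kernel -/
noncomputable def FF' (χ : W →* ℤˣ) (r : ℝ) (X : W → W → ℂ) (z y : W) : ℂ :=
  open Classical in
  ((r ^ ((nl cs χ z⁻¹).card + (nl cs χ y⁻¹).card) : ℝ) : ℂ) *
    ∑ A ∈ (nl cs χ z⁻¹ ∩ nl cs χ y⁻¹).powerset, ((((1 - r ^ 2) / r ^ 2) ^ A.card : ℝ) : ℂ) *
      X (z * gc cs χ A) (y * gc cs χ A)

open Classical in
private theorem Map_sum_cj (i : B) (D : Finset W) (f : Finset W → ℂ) :
    ∑ A ∈ (cj cs i D).powerset, f A = ∑ A ∈ D.powerset, f (cj cs i A) := by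
  have hsub : ∀ A D : Finset W, A ⊆ D → cj cs i A ⊆ cj cs i D := by
    intro A D h t ht
    rw [mem_cj] at ht ⊢
    exact h ht
  refine (Finset.sum_nbij' (cj cs i) (cj cs i) ?_ ?_ ?_ ?_ ?_).symm
  · intro A hA
    rw [Finset.mem_powerset] at hA ⊢
    exact hsub _ _ hA
  · intro A hA
    rw [Finset.mem_powerset] at hA ⊢
    have := hsub _ _ hA
    rwa [cj_cj] at this
  · intro A _
    exact cj_cj cs i A
  · intro A _
    exact cj_cj cs i A
  · intro A _
    rfl

open Classical in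
private theorem Map_cj_inter (i : B) (P Q : Finset W) :
    cj cs i P ∩ cj cs i Q = cj cs i (P ∩ Q) := by
  ext t
  rw [Finset.mem_inter, mem_cj, mem_cj, mem_cj, Finset.mem_inter]

/-- the values for `A` and `s A s`, `s ∈ L` -/
private theorem Map_F1 (hM : Mix cs L χ) {X : W → W → ℂ} (hX : RInv cs L X) {s : B} (hs : s ∈ L)
    {A : Finset W} {x : W} (hA : A ⊆ nl cs χ x) (hsA : cs.simple s ∉ A) (z y : W) :
    X (z * cs.simple s * gc cs χ (cj cs s A)) (y * cs.simple s * gc cs χ (cj cs s A)) =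
      X (z * gc cs χ A) (y * gc cs χ A) := by
  have hss := cs.simple_mul_simple_self s
  have hg := hM.gate_gc cs hA
  have hg2 := hM.gate_cj cs hs hsA hg
  have hA2 : cj cs s A ⊆ nl cs χ (cs.simple s * x) := by
    intro t ht
    have h1 := (mem_half cs hsA x).2 (fun t ht => ((mem_nl cs).1 (hA ht)).1) t ht
    rw [mem_cj] at ht
    refine (mem_nl cs).2 ⟨h1, ?_⟩
    have := ((mem_nl cs).1 (hA ht)).2
    rwa [chi_simple_conj] at this
  rw [hM.gc_eq cs hA2 hg2 hX]
  have e : ∀ u : W, u * cs.simple s * (cs.simple s * gc cs χ A) = u * gc cs χ A := by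
    intro u
    rw [mul_assoc, ← mul_assoc (cs.simple s), hss, one_mul]
  rw [e, e]

open Classical in
/-- the values for `A` and `A + s`, `s ∈ L` -/
private theorem Map_F2 (hM : Mix cs L χ) {X : W → W → ℂ} (hX : RInv cs L X) {s : B} (hs : s ∈ L)
    {A : Finset W} {x : W} (hA : insert (cs.simple s) A ⊆ nl cs χ x) (z y : W) :
    X (z * gc cs χ (insert (cs.simple s) A)) (y * gc cs χ (insert (cs.simple s) A)) =
      X (z * gc cs χ A) (y * gc cs χ A) := by
  have hA' : A ⊆ nl cs χ x := fun t ht => hA (Finset.mem_insert_of_mem ht)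
  have hg := hM.gate_gc cs hA'
  obtain ⟨g, hgL, hg2⟩ := hM.gate_insert_simple cs hs hg (x := x)
    (fun t ht => ((mem_nl cs).1 (hA ht)).1)
  rw [hM.gc_eq cs hA hg2 hX, ← mul_assoc, ← mul_assoc, hX g hgL]

/-- the values for `A` and `b A b`, `b ∉ L`, if some `t ∈ A` does not commute with `b` -/
private theorem Map_F3 (hM : Mix cs L χ) {X : W → W → ℂ} (hX : RInv cs L X) {b : B} (hb : b ∉ L)
    {A : Finset W} {x t : W} (hA : A ⊆ nl cs χ x) (ht : t ∈ A)
    (htb : t * cs.simple b ≠ cs.simple b * t) (z y : W) :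
    X (z * cs.simple b * gc cs χ (cj cs b A)) (y * cs.simple b * gc cs χ (cj cs b A)) =
      X (z * gc cs χ A) (y * gc cs χ A) := by
  have hss := cs.simple_mul_simple_self b
  have hAχ : ∀ t ∈ A, χ t = 1 := fun t ht => ((mem_nl cs).1 (hA ht)).2
  have hg := hM.gate_gc cs hA
  have hg2 := hM.gate_cj' cs hAχ hb hg ht htb
  have hA2 : cj cs b A ⊆ nl cs χ (cs.simple b * x) := by
    rw [hM.nl_bmul cs hb]
    intro t ht
    rw [mem_cj] at ht ⊢
    exact hA ht
  rw [hM.gc_eq cs hA2 hg2 hX]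
  have e : ∀ u : W, u * cs.simple b * (cs.simple b * gc cs χ A) = u * gc cs χ A := by
    intro u
    rw [mul_assoc, ← mul_assoc (cs.simple b), hss, one_mul]
  rw [e, e]

theorem rdesc_iff (y : W) (b : B) :
    cs.IsRightDescent y b ↔ cs.IsLeftInversion y⁻¹ (cs.simple b) := by
  rw [cs.isLeftInversion_simple_iff_isLeftDescent, cs.isLeftDescent_inv_iff]

/-- the values for `b ∉ L` if all `t ∈ A` commute with `b` -/
private theorem Map_F4 (hM : Mix cs L χ) {q : B → ℝ} (hq : Admissible cs q) {X : W → W → ℂ}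
    (hX : RInv cs L X) (hCC : ∀ i, CC cs q X i) {b : B} (hb : b ∉ L)
    {A : Finset W} {x : W} (hA : A ⊆ nl cs χ x)
    (h : ∀ t ∈ A, t * cs.simple b = cs.simple b * t) (z y : W) :
    X (z * gc cs χ A) (y * cs.simple b * gc cs χ A) +
        pr cs q b y * X (z * gc cs χ A) (y * gc cs χ A) =
      X (z * cs.simple b * gc cs χ A) (y * gc cs χ A) +
        pr cs q b z * X (z * gc cs χ A) (y * gc cs χ A) := by
  have hAχ : ∀ t ∈ A, χ t = 1 := fun t ht => ((mem_nl cs).1 (hA ht)).2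
  have hg := hM.gate_gc cs hA
  obtain ⟨hn, g, hgL, b', hb', hw⟩ := hM.gate_comm cs hAχ hb hg h
  set c := gc cs χ A with hc
  have h1 := hCC b' (z * c * g) (y * c * g)
  have e1 : ∀ u : W, u * c * g * cs.simple b' = u * cs.simple b * c * g := by
    intro u
    have : cs.simple b * c = c * (g * cs.simple b' * g⁻¹) := by rw [← hw]; group
    rw [mul_assoc u (cs.simple b), this]
    group
  have hpp : pp q b' = pp q b := by
    have : q b' = q b := by
      apply hq.2
      rw [isConj_iff]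
      refine ⟨c * g, ?_⟩
      have h2 : cs.simple b = c * (c⁻¹ * cs.simple b * c) * c⁻¹ := by group
      rw [h2, hw]
      group
    unfold pp
    rw [this]
  have hd : ∀ u : W, cs.IsRightDescent (u * c * g) b' ↔ cs.IsRightDescent u b := by
    intro u
    rw [rdesc_iff, rdesc_iff]
    have e2 : (u * c * g)⁻¹ = (c * g)⁻¹ * u⁻¹ := by group
    have e3 : (c * g)⁻¹⁻¹ * cs.simple b' * (c * g)⁻¹ = cs.simple b := by
      have h2 : cs.simple b = c * (c⁻¹ * cs.simple b * c) * c⁻¹ := by group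
      rw [h2, hw]
      group
    have e4 : c * g * cs.simple b' * (c * g)⁻¹ = cs.simple b := by
      rw [← e3]
      group
    rw [e2, inv_mul_iff cs (cs.isReflection_simple b'), e3, inv_inv_iff, e4,
      hM.inv_mul_mem cs hgL (cs.isReflection_simple b) (hM.neg b hb)]
    tauto
  have hp : ∀ u : W, pr cs q b' (u * c * g) = pr cs q b u := by
    intro u
    unfold pr
    by_cases h2 : cs.IsRightDescent u b
    · rw [if_pos h2, if_pos ((hd u).2 h2), hpp]
    · rw [if_neg h2, if_neg (fun h3 => h2 ((hd u).1 h3))]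
  rw [e1, e1, hp, hp, hX g hgL, hX g hgL, hX g hgL] at h1
  exact h1

variable {r : ℝ}

open Classical in
private theorem Map_inv_i (hM : Mix cs L χ) (hr : 0 < r) {X : W → W → ℂ} (hX : RInv cs L X)
    {s : B} (hs : s ∈ L) (z y : W) (hz : cs.simple s ∉ nl cs χ z⁻¹)
    (hy : cs.simple s ∉ nl cs χ y⁻¹) :
    FF' cs χ r X (z * cs.simple s) (y * cs.simple s) = FF' cs χ r X z y := by
  unfold FF'
  have ez : (z * cs.simple s)⁻¹ = cs.simple s * z⁻¹ := by rw [mul_inv_rev, cs.inv_simple]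
  have ey : (y * cs.simple s)⁻¹ = cs.simple s * y⁻¹ := by rw [mul_inv_rev, cs.inv_simple]
  rw [ez, ey, hM.nl_smul cs hs hz, hM.nl_smul cs hs hy]
  set P := nl cs χ z⁻¹ with hP
  set Q := nl cs χ y⁻¹ with hQ
  have hsc : ∀ D : Finset W, cs.simple s ∉ D → cs.simple s ∉ cj cs s D := by
    intro D hD h
    rw [mem_cj, cs.simple_mul_simple_self, one_mul] at h
    exact hD h
  have hsPQ : cs.simple s ∉ cj cs s (P ∩ Q) := hsc _ (fun h => hz (Finset.mem_inter.1 h).1)
  rw [← Finset.insert_inter_distrib, Map_cj_inter, Finset.sum_powerset_insert hsPQ, Map_sum_cj,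
    Map_sum_cj, Finset.card_insert_of_notMem (hsc P hz), Finset.card_insert_of_notMem (hsc Q hy),
    card_cj, card_cj, ← Finset.sum_add_distrib, Finset.mul_sum, Finset.mul_sum]
  refine Finset.sum_congr rfl fun A hA => ?_
  rw [Finset.mem_powerset] at hA
  have hAP : A ⊆ nl cs χ z⁻¹ := fun t ht => (Finset.mem_inter.1 (hA ht)).1
  have hsA : cs.simple s ∉ A := fun h => hz (hAP h)
  have hins : insert (cs.simple s) (cj cs s A) ⊆ nl cs χ (cs.simple s * z⁻¹) := by
    rw [hM.nl_smul cs hs hz]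
    refine Finset.insert_subset_insert _ ?_
    intro t ht
    rw [mem_cj] at ht ⊢
    exact hAP ht
  rw [Map_F2 cs hM hX hs hins, Map_F1 cs hM hX hs hAP hsA,
    Finset.card_insert_of_notMem (hsc A hsA), card_cj]
  have hκ : (r : ℂ) ^ 2 * (1 + (((1 - r ^ 2) / r ^ 2 : ℝ) : ℂ)) = 1 := by
    have h1 : r ^ 2 * (1 + (1 - r ^ 2) / r ^ 2) = 1 := by
      have := hr.ne'
      field_simp
      ring
    exact_mod_cast congrArg (fun x : ℝ => (x : ℂ)) h1
  generalize ((1 - r ^ 2) / r ^ 2 : ℝ) = κ at hκ ⊢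
  generalize X (z * gc cs χ A) (y * gc cs χ A) = x
  simp only [Complex.ofReal_pow]
  linear_combination ((r : ℂ) ^ (P.card + Q.card) * (κ : ℂ) ^ A.card * x) * hκ

open Classical in
private theorem Map_inv_iii (hM : Mix cs L χ) {X : W → W → ℂ} (hX : RInv cs L X)
    {s : B} (hs : s ∈ L) (z y : W) (hz : cs.simple s ∈ nl cs χ z⁻¹)
    (hy : cs.simple s ∉ nl cs χ y⁻¹) :
    FF' cs χ r X (z * cs.simple s) (y * cs.simple s) = FF' cs χ r X z y := by
  unfold FF'
  have ez : (z * cs.simple s)⁻¹ = cs.simple s * z⁻¹ := by rw [mul_inv_rev, cs.inv_simple]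
  have ey : (y * cs.simple s)⁻¹ = cs.simple s * y⁻¹ := by rw [mul_inv_rev, cs.inv_simple]
  rw [ez, ey, nl_smul' cs hz, hM.nl_smul cs hs hy]
  set P := nl cs χ z⁻¹ with hP
  set Q := nl cs χ y⁻¹ with hQ
  have hsc : ∀ D : Finset W, cs.simple s ∉ D → cs.simple s ∉ cj cs s D := by
    intro D hD h
    rw [mem_cj, cs.simple_mul_simple_self, one_mul] at h
    exact hD h
  have hsE : cs.simple s ∉ cj cs s (P.erase (cs.simple s)) := hsc _ (Finset.notMem_erase _ _)
  have e1 : cj cs s (P.erase (cs.simple s)) ∩ insert (cs.simple s) (cj cs s Q) =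
      cj cs s (P ∩ Q) := by
    rw [Finset.inter_insert_of_notMem hsE, Map_cj_inter]
    congr 1
    rw [Finset.erase_inter]
    exact Finset.erase_eq_of_notMem (fun h => hy (Finset.mem_inter.1 h).2)
  have e2 : (P.erase (cs.simple s)).card + 1 = P.card := Finset.card_erase_add_one hz
  rw [e1, Map_sum_cj, Finset.card_insert_of_notMem (hsc Q hy), card_cj, card_cj]
  have e3 : (P.erase (cs.simple s)).card + (Q.card + 1) = P.card + Q.card := by omega
  rw [e3]
  congr 1
  refine Finset.sum_congr rfl fun A hA => ?_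
  rw [Finset.mem_powerset] at hA
  have hAQ : A ⊆ nl cs χ y⁻¹ := fun t ht => (Finset.mem_inter.1 (hA ht)).2
  have hsA : cs.simple s ∉ A := fun h => hy (hAQ h)
  rw [Map_F1 cs hM hX hs hAQ hsA, card_cj]

open Classical in
private theorem Map_symm (χ : W →* ℤˣ) (r : ℝ) (X : W → W → ℂ) (z y : W) :
    FF' cs χ r X z y = FF' cs χ r (fun a b => X b a) y z := by
  unfold FF'
  rw [Finset.inter_comm, add_comm]

private theorem Map_inv (hM : Mix cs L χ) (hr : 0 < r) {X : W → W → ℂ} (hX : RInv cs L X)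
    {s : B} (hs : s ∈ L) (z y : W) :
    FF' cs χ r X (z * cs.simple s) (y * cs.simple s) = FF' cs χ r X z y := by
  by_cases hz : cs.simple s ∈ nl cs χ z⁻¹
  · by_cases hy : cs.simple s ∈ nl cs χ y⁻¹
    · have hn : ∀ u : W, cs.simple s ∈ nl cs χ u⁻¹ → cs.simple s ∉ nl cs χ (u * cs.simple s)⁻¹ := by
        intro u hu h
        have e : (u * cs.simple s)⁻¹ = cs.simple s * u⁻¹ := by rw [mul_inv_rev, cs.inv_simple]
        rw [mem_nl] at hu h
        have e2 : cs.simple s * cs.simple s * cs.simple s = cs.simple s := by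
          rw [cs.simple_mul_simple_self, one_mul]
        rw [e, inv_smul_iff cs (cs.isReflection_simple s), e2] at h
        tauto
      have h := Map_inv_i cs hM hr hX hs (z * cs.simple s) (y * cs.simple s) (hn z hz) (hn y hy)
      rw [cs.simple_mul_simple_cancel_right, cs.simple_mul_simple_cancel_right] at h
      exact h.symm
    · exact Map_inv_iii cs hM hX hs z y hz hy
  · by_cases hy : cs.simple s ∈ nl cs χ y⁻¹
    · rw [Map_symm, Map_symm cs χ r X z y]
      exact Map_inv_iii cs hM (fun g hg a b => hX g hg b a) hs y z hy hz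
    · exact Map_inv_i cs hM hr hX hs z y hz hy

open Classical in
private theorem Map_CC_R (hM : Mix cs L χ) {q : B → ℝ} (hq : Admissible cs q) {X : W → W → ℂ}
    (hX : RInv cs L X) (hCC : ∀ i, CC cs q X i) {b : B} (hb : b ∉ L) :
    CC cs q (FF' cs χ r X) b := by
  intro z y
  have hss := cs.simple_mul_simple_self b
  set P := nl cs χ z⁻¹ with hP
  set Q := nl cs χ y⁻¹ with hQ
  have ez : nl cs χ (z * cs.simple b)⁻¹ = cj cs b P := by
    rw [mul_inv_rev, cs.inv_simple, hM.nl_bmul cs hb]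
  have ey : nl cs χ (y * cs.simple b)⁻¹ = cj cs b Q := by
    rw [mul_inv_rev, cs.inv_simple, hM.nl_bmul cs hb]
  have hcomm : ∀ t : W, t * cs.simple b = cs.simple b * t → cs.simple b * t * cs.simple b = t := by
    intro t ht
    rw [← ht, mul_assoc, hss, mul_one]
  have e1 : FF' cs χ r X z (y * cs.simple b) = ((r ^ (P.card + Q.card) : ℝ) : ℂ) *
      ∑ A ∈ (P ∩ cj cs b Q).powerset, ((((1 - r ^ 2) / r ^ 2) ^ A.card : ℝ) : ℂ) *
        X (z * gc cs χ A) (y * cs.simple b * gc cs χ A) := by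
    unfold FF'
    rw [ey, card_cj]
  have e2 : FF' cs χ r X (z * cs.simple b) y = ((r ^ (P.card + Q.card) : ℝ) : ℂ) *
      ∑ A ∈ (P ∩ cj cs b Q).powerset, ((((1 - r ^ 2) / r ^ 2) ^ A.card : ℝ) : ℂ) *
        X (z * cs.simple b * gc cs χ (cj cs b A)) (y * gc cs χ (cj cs b A)) := by
    unfold FF'
    have e3 : cj cs b P ∩ Q = cj cs b (P ∩ cj cs b Q) := by
      rw [← Map_cj_inter, cj_cj]
    rw [ez, ← hQ, e3, Map_sum_cj, card_cj]
    congr 1
    refine Finset.sum_congr rfl fun A _ => ?_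
    rw [card_cj]
  have e3 : FF' cs χ r X z y = ((r ^ (P.card + Q.card) : ℝ) : ℂ) *
      ∑ A ∈ (P ∩ Q).powerset, ((((1 - r ^ 2) / r ^ 2) ^ A.card : ℝ) : ℂ) *
        X (z * gc cs χ A) (y * gc cs χ A) := rfl
  -- the difference of the two sums
  have key : (∑ A ∈ (P ∩ cj cs b Q).powerset, ((((1 - r ^ 2) / r ^ 2) ^ A.card : ℝ) : ℂ) *
        X (z * gc cs χ A) (y * cs.simple b * gc cs χ A)) -
      ∑ A ∈ (P ∩ cj cs b Q).powerset, ((((1 - r ^ 2) / r ^ 2) ^ A.card : ℝ) : ℂ) *
        X (z * cs.simple b * gc cs χ (cj cs b A)) (y * gc cs χ (cj cs b A)) =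
      (pr cs q b z - pr cs q b y) *
        ∑ A ∈ ((P ∩ cj cs b Q).powerset).filter
          (fun A => ∀ t ∈ A, t * cs.simple b = cs.simple b * t),
          ((((1 - r ^ 2) / r ^ 2) ^ A.card : ℝ) : ℂ) * X (z * gc cs χ A) (y * gc cs χ A) := by
    rw [← Finset.sum_sub_distrib, Finset.sum_filter, Finset.mul_sum]
    refine Finset.sum_congr rfl fun A hA => ?_
    rw [Finset.mem_powerset] at hA
    have hAP : A ⊆ nl cs χ z⁻¹ := fun t ht => (Finset.mem_inter.1 (hA ht)).1
    by_cases hc : ∀ t ∈ A, t * cs.simple b = cs.simple b * t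
    · rw [if_pos hc]
      have hcj : cj cs b A = A := by
        ext t
        rw [mem_cj]
        constructor
        · intro h1
          have h2 := hcomm _ (hc _ h1)
          rw [conj_conj] at h2
          rwa [← h2] at h1
        · intro h1
          rwa [hcomm _ (hc _ h1)]
      have h4 := Map_F4 cs hM hq hX hCC hb hAP hc z y
      rw [hcj]
      linear_combination ((((1 - r ^ 2) / r ^ 2) ^ A.card : ℝ) : ℂ) * h4
    · rw [if_neg hc, mul_zero]
      push Not at hc
      obtain ⟨t, ht, htb⟩ := hc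
      have h4 := Map_F3 cs hM hX hb hAP ht htb z (y * cs.simple b)
      rw [cs.simple_mul_simple_cancel_right] at h4
      rw [h4, sub_self]
  rw [e1, e2, e3]
  by_cases hd : cs.IsRightDescent z b ↔ cs.IsRightDescent y b
  · have hp : pr cs q b z = pr cs q b y := by
      unfold pr
      simp only [hd]
    rw [hp, sub_self, zero_mul, sub_eq_zero] at key
    rw [key, hp]
  · have hall : ∀ t ∈ P ∩ Q, t * cs.simple b = cs.simple b * t := by
      intro t ht
      obtain ⟨h1, h2⟩ := Finset.mem_inter.1 ht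
      obtain ⟨h1, h1χ⟩ := (mem_nl cs).1 h1
      obtain ⟨h2, _⟩ := (mem_nl cs).1 h2
      rw [rdesc_iff, rdesc_iff] at hd
      by_cases h3 : cs.IsLeftInversion z⁻¹ (cs.simple b)
      · exact hM.same_side cs hb h1χ h2 h1 (fun h4 => hd ⟨fun _ => h4, fun _ => h3⟩) h3
      · have h4 : cs.IsLeftInversion y⁻¹ (cs.simple b) := by
          by_contra h4
          exact hd ⟨fun h => absurd h h3, fun h => absurd h h4⟩
        exact hM.same_side cs hb h1χ h1 h2 h3 h4
    have hset : ((P ∩ cj cs b Q).powerset).filter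
        (fun A => ∀ t ∈ A, t * cs.simple b = cs.simple b * t) = (P ∩ Q).powerset := by
      ext A
      rw [Finset.mem_filter, Finset.mem_powerset, Finset.mem_powerset]
      constructor
      · rintro ⟨h1, h2⟩ t ht
        obtain ⟨h3, h4⟩ := Finset.mem_inter.1 (h1 ht)
        rw [mem_cj, hcomm t (h2 t ht)] at h4
        exact Finset.mem_inter.2 ⟨h3, h4⟩
      · intro h1
        refine ⟨fun t ht => ?_, fun t ht => hall t (h1 ht)⟩
        obtain ⟨h3, h4⟩ := Finset.mem_inter.1 (h1 ht)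
        refine Finset.mem_inter.2 ⟨h3, ?_⟩
        rw [mem_cj, hcomm t (hall t (h1 ht))]
        exact h4
    rw [hset] at key
    linear_combination ((r ^ (P.card + Q.card) : ℝ) : ℂ) * key

theorem rinv_of_CC {q : B → ℝ} (hL : ∀ i ∈ L, q i = 1) {X : W → W → ℂ} (hX : ∀ i, CC cs q X i) :
    RInv cs L X := fun _ hg z y => Pool.Agent.H26.SD.CC_inv cs hL hX hg z y

/-- the kernel satisfies all commutation conditions -/
theorem Mix.FF_CC (hM : Mix cs L χ) {q : B → ℝ} (hq : Admissible cs q) (hL : ∀ i ∈ L, q i = 1)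
    (hr : 0 < r) {X : W → W → ℂ} (hCC : ∀ i, CC cs q X i) (i : B) :
    CC cs q (FF' cs χ r X) i := by
  have hX := rinv_of_CC cs hL hCC
  by_cases hi : i ∈ L
  · intro z y
    rw [Pool.Agent.H26.SD.pr_one cs (hL i hi), Pool.Agent.H26.SD.pr_one cs (hL i hi), zero_mul,
      add_zero, add_zero]
    have h := Map_inv cs hM hr hX hi (z * cs.simple i) y
    rw [cs.simple_mul_simple_cancel_right] at h
    exact h
  · exact Map_CC_R cs hM hq hX hCC hi

theorem Mix.FF_one (hM : Mix cs L χ) {X : W → W → ℂ} (hX : RInv cs L X) (z : W) :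
    FF' cs χ r X z 1 = ((r ^ (nl cs χ z⁻¹).card : ℝ) : ℂ) * X z 1 := by
  classical
  unfold FF'
  rw [inv_one, nl_one, Finset.inter_empty, Finset.powerset_empty, Finset.sum_singleton,
    Finset.card_empty, pow_zero, add_zero]
  have h1 : gc cs χ (∅ : Finset W) ∈ WP cs L :=
    hM.gate_empty cs (hM.gate_gc cs (x := 1) (Finset.empty_subset _))
  have h2 := hX _ h1 z 1
  rw [h2, Complex.ofReal_one, one_mul]

open Classical in
/-- the weights -/
private noncomputable def kk (χ : W →* ℤˣ) (r : ℝ) (A : Finset W) (y : W) : ℝ :=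
  if A ⊆ nl cs χ y⁻¹ then r ^ (nl cs χ y⁻¹).card * √((1 - r ^ 2) / r ^ 2) ^ A.card else 0

private noncomputable def ka (χ : W →* ℤˣ) (A : Finset W) : W := (gc cs χ A)⁻¹

private noncomputable def kw (χ : W →* ℤˣ) (r : ℝ) (A : Finset W) (w : W) : ℝ :=
  kk cs χ r A (w * ka cs χ A)

private theorem kw_eq (χ : W →* ℤˣ) (r : ℝ) (A : Finset W) (y : W) :
    kw cs χ r A (y * (ka cs χ A)⁻¹) = kk cs χ r A y := by
  unfold kw
  rw [inv_mul_cancel_right]

private theorem kk_sum (h0 : 0 < r) (h1 : r < 1) (y : W) :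
    HasSum (fun A => (kw cs χ r A (y * (ka cs χ A)⁻¹)) ^ 2) 1 := by
  classical
  have hκ : 0 ≤ (1 - r ^ 2) / r ^ 2 := by
    refine div_nonneg ?_ (sq_nonneg _)
    nlinarith
  have e : ∀ A, (kw cs χ r A (y * (ka cs χ A)⁻¹)) ^ 2 = if A ⊆ nl cs χ y⁻¹ then
      (r ^ 2) ^ (nl cs χ y⁻¹).card * ((1 - r ^ 2) / r ^ 2) ^ A.card else 0 := by
    intro A
    rw [kw_eq]
    unfold kk
    split_ifs
    · rw [mul_pow, ← pow_mul, ← pow_mul, mul_comm _ 2, mul_comm _ 2, pow_mul, pow_mul,
        Real.sq_sqrt hκ]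
    · simp
  have h2 : (∑ A ∈ (nl cs χ y⁻¹).powerset, (kw cs χ r A (y * (ka cs χ A)⁻¹)) ^ 2) = 1 := by
    have h3 : ∀ A ∈ (nl cs χ y⁻¹).powerset, (kw cs χ r A (y * (ka cs χ A)⁻¹)) ^ 2 =
        (r ^ 2) ^ (nl cs χ y⁻¹).card *
          (((1 - r ^ 2) / r ^ 2) ^ A.card * 1 ^ ((nl cs χ y⁻¹).card - A.card)) := by
      intro A hA
      rw [e, if_pos (Finset.mem_powerset.1 hA), one_pow, mul_one]
    rw [Finset.sum_congr rfl h3, ← Finset.mul_sum, Finset.sum_pow_mul_eq_add_pow, ← mul_pow]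
    have h4 : r ^ 2 * ((1 - r ^ 2) / r ^ 2 + 1) = 1 := by
      have := h0.ne'
      field_simp
      ring
    rw [h4, one_pow]
  rw [← h2]
  refine hasSum_sum_of_ne_finset_zero ?_
  intro A hA
  rw [e, if_neg (fun h => hA (Finset.mem_powerset.2 h))]

private theorem kk_kmap (h0 : 0 < r) (h1 : r < 1) (X : W → W → ℂ) :
    kmap (kw cs χ r) (kw cs χ r) (ka cs χ) X = FF' cs χ r X := by
  classical
  funext z y
  have hκ : 0 ≤ (1 - r ^ 2) / r ^ 2 := by
    refine div_nonneg ?_ (sq_nonneg _)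
    nlinarith
  unfold kmap
  rw [tsum_eq_sum (s := (nl cs χ z⁻¹ ∩ nl cs χ y⁻¹).powerset)]
  · unfold FF'
    rw [Finset.mul_sum]
    refine Finset.sum_congr rfl fun A hA => ?_
    rw [Finset.mem_powerset, Finset.subset_inter_iff] at hA
    rw [kw_eq, kw_eq]
    unfold kk
    rw [if_pos hA.1, if_pos hA.2]
    have e : r ^ (nl cs χ z⁻¹).card * √((1 - r ^ 2) / r ^ 2) ^ A.card *
        (r ^ (nl cs χ y⁻¹).card * √((1 - r ^ 2) / r ^ 2) ^ A.card) =
        r ^ ((nl cs χ z⁻¹).card + (nl cs χ y⁻¹).card) * ((1 - r ^ 2) / r ^ 2) ^ A.card := by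
      rw [mul_mul_mul_comm, ← pow_add, ← mul_pow, Real.mul_self_sqrt hκ]
    rw [e]
    unfold ka
    rw [inv_inv]
    push_cast
    ring
  · intro A hA
    rw [Finset.mem_powerset, Finset.subset_inter_iff] at hA
    rw [kw_eq, kw_eq]
    unfold kk
    by_cases h2 : A ⊆ nl cs χ z⁻¹
    · rw [if_neg (fun h3 => hA ⟨h2, h3⟩)]
      simp
    · rw [if_neg h2]
      simp

/-- `T_w ↦ r ^ |w|_L T_w` is a normal unital completely positive map -/
theorem Mix.exists_psi (hM : Mix cs L χ) {q : B → ℝ} (hq : Admissible cs q)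
    (hL : ∀ i ∈ L, q i = 1) (h0 : 0 < r) (h1 : r < 1) :
    ∃ Φ : HA cs q →ₗ[ℂ] HA cs q, IsNormalMap (HA cs q) Φ ∧ CBNormLE (HA cs q) Φ 1 ∧
      IsMult cs q Φ (fun w => ((r ^ (nl cs χ w⁻¹).card : ℝ) : ℂ)) ∧ IsCP (HA cs q) Φ := by
  have hs : ∀ y, Summable (fun A => (kw cs χ r A (y * (ka cs χ A)⁻¹)) ^ 2) ∧
      ∑' A, (kw cs χ r A (y * (ka cs χ A)⁻¹)) ^ 2 ≤ 1 := fun y =>
    ⟨(kk_sum cs h0 h1 y).summable, (kk_sum cs h0 h1 y).tsum_eq.le⟩
  obtain ⟨Φ, a1, a2, a3, a4⟩ := exists_map_of_kernel cs hq (kw cs χ r) (kw cs χ r)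
    (ka cs χ) zero_le_one hs hs (fun w => ((r ^ (nl cs χ w⁻¹).card : ℝ) : ℂ))
    (fun X hX i => by rw [kk_kmap cs h0 h1]; exact hM.FF_CC cs hq hL h0 hX i)
    (fun X hX z => by rw [kk_kmap cs h0 h1]; exact hM.FF_one cs (rinv_of_CC cs hL hX) z)
  exact ⟨Φ, a1, a2, a3, a4 rfl⟩

end Pool.Agent.H73.HM
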