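import Pool.Agent.H73.HM.Basic

/-!
# Project HM, module Quad: walls of different types are disjoint or orthogonal
-/

set_option autoImplicit false

namespace Pool.Agent.H73.HM

open Pool.Agent.H73.HVN Pool.Agent.H26.HR

universe u v

variable {B : Type v} {W : Type u} [Group W] {M : CoxeterMatrix B} (cs : CoxeterSystem M W)
variable {L : Set B} {χ : W →* ℤˣ}

private theorem Quad_comm_conj {τ ρ s : W} (hs : s * s = 1)
    (h : s * τ * s * (s * ρ * s) = s * ρ * s * (s * τ * s)) : τ * ρ = ρ * τ := by
  have e : ∀ a b : W, s * a * s * (s * b * s) = s * (a * b) * s := by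
    intro a b
    calc s * a * s * (s * b * s) = s * a * (s * s) * b * s := by group
      _ = s * (a * b) * s := by rw [hs]; group
  rw [e, e] at h
  exact mul_left_cancel (mul_right_cancel h)

private theorem Quad_key_aux (hM : Mix cs L χ) : ∀ n : ℕ, ∀ w : W, cs.length w = n →
    ∀ τ ∈ WP cs L, ∀ τ' ∈ WP cs L, τ * w = w * τ' → ∀ ρ, cs.IsLeftInversion w ρ → χ ρ = -1 →
      τ * ρ = ρ * τ := by
  intro n
  induction n using Nat.strong_induction_on with
  | _ n ih =>
    intro w hn τ hτ τ' hτ' hw ρ hρ hχ
    by_cases h1 : ∃ i ∈ L, cs.IsLeftDescent w i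
    · obtain ⟨i, hi, hd⟩ := h1
      have hs := cs.simple_mul_simple_self i
      have hsL : cs.simple i ∈ WP cs L := (simple_mem_WP_iff cs).2 hi
      have hne : ρ ≠ cs.simple i := (ne_of_chi (hM.one i hi) hχ).symm
      have hwe : w = cs.simple i * (cs.simple i * w) := by
        rw [← mul_assoc, hs, one_mul]
      have hρ' : cs.IsLeftInversion (cs.simple i * w) (cs.simple i * ρ * cs.simple i) := by
        rw [← inv_smul_ne cs hρ.1 hne, ← hwe]
        exact hρ
      have hlt : cs.length (cs.simple i * w) < n := by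
        rw [← hn]
        exact hd
      refine Quad_comm_conj hs (ih _ hlt (cs.simple i * w) rfl (cs.simple i * τ * cs.simple i)
        (mul_mem (mul_mem hsL hτ) hsL) τ' hτ' ?_ _ hρ' ?_)
      · calc cs.simple i * τ * cs.simple i * (cs.simple i * w)
            = cs.simple i * τ * (cs.simple i * cs.simple i) * w := by group
          _ = cs.simple i * (τ * w) := by rw [hs]; group
          _ = cs.simple i * w * τ' := by rw [hw]; group
      · have := chi_conj χ (cs.simple i) ρ
        rw [cs.inv_simple] at this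
        rw [this, hχ]
    · by_cases h2 : ∃ i ∈ L, cs.IsRightDescent w i
      · obtain ⟨i, hi, hd⟩ := h2
        have hs := cs.simple_mul_simple_self i
        have hsL : cs.simple i ∈ WP cs L := (simple_mem_WP_iff cs).2 hi
        have hρ' : cs.IsLeftInversion (w * cs.simple i) ρ :=
          (hM.inv_mul_mem cs hsL hρ.1 hχ).2 hρ
        have hlt : cs.length (w * cs.simple i) < n := by
          rw [← hn]
          exact hd
        refine ih _ hlt (w * cs.simple i) rfl τ hτ (cs.simple i * τ' * cs.simple i)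
          (mul_mem (mul_mem hsL hτ') hsL) ?_ _ hρ' hχ
        calc τ * (w * cs.simple i) = w * τ' * cs.simple i := by rw [← mul_assoc, hw]
          _ = w * (cs.simple i * cs.simple i) * τ' * cs.simple i := by rw [hs, mul_one]
          _ = w * cs.simple i * (cs.simple i * τ' * cs.simple i) := by group
      · push Not at h1 h2
        by_cases hw1 : w = 1
        · subst hw1
          exact absurd hρ (not_inv_one cs ρ)
        · obtain ⟨b, hb⟩ := cs.exists_leftDescent_of_ne_one hw1
          have hbL : b ∉ L := fun h => h1 b h hb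
          have hs := cs.simple_mul_simple_self b
          have hd : cs.IsLeftDescent (τ * w) b := by
            rw [hw]
            unfold CoxeterSystem.IsLeftDescent at hb ⊢
            have h3 := length_mul_of_min cs h2 hτ'
            have h4 := cs.length_mul_le (cs.simple b * w) τ'
            rw [← mul_assoc]
            omega
          have hc := hM.comm_of_descent cs hτ h1 hbL hd
          have hwe : w = cs.simple b * (cs.simple b * w) := by
            rw [← mul_assoc, hs, one_mul]
          by_cases hρb : ρ = cs.simple b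
          · rw [hρb, hc]
          · have hρ' : cs.IsLeftInversion (cs.simple b * w) (cs.simple b * ρ * cs.simple b) := by
              rw [← inv_smul_ne cs hρ.1 hρb, ← hwe]
              exact hρ
            have hlt : cs.length (cs.simple b * w) < n := by
              rw [← hn]
              exact hb
            have h5 := ih _ hlt (cs.simple b * w) rfl τ hτ τ' hτ' (by
              rw [← mul_assoc, ← hc, mul_assoc, hw, mul_assoc]) _ hρ' (by
                have := chi_conj χ (cs.simple b) ρ
                rw [cs.inv_simple] at this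
                rw [this, hχ])
            refine Quad_comm_conj hs ?_
            have e : cs.simple b * τ * cs.simple b = τ := by
              rw [hc, mul_assoc, hs, mul_one]
            rw [e, h5]

/-- (2) -/
theorem Mix.key (hM : Mix cs L χ) {w τ τ' : W} (hτ : τ ∈ WP cs L) (hτ' : τ' ∈ WP cs L)
    (h : τ * w = w * τ') {ρ : W} (hρ : cs.IsLeftInversion w ρ) (hχ : χ ρ = -1) : τ * ρ = ρ * τ :=
  Quad_key_aux cs hM _ w rfl τ hτ τ' hτ' h ρ hρ hχ

/-- the crossing of a wall -/
theorem exists_cross {x t : W} (h : cs.IsLeftInversion x t) :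
    ∃ (u : W) (i : B), t = u * cs.simple i * u⁻¹ ∧
      ∀ ρ, cs.IsLeftInversion u ρ → cs.IsLeftInversion x ρ := by
  obtain ⟨ω, hω, rfl⟩ := cs.exists_isReduced x
  induction ω using List.reverseRecOn with
  | nil =>
    rw [cs.wordProd_nil] at h
    exact absurd h (not_inv_one cs t)
  | append_singleton β i ih =>
    have hβ : cs.IsReduced β := by
      have := hω.take β.length
      simpa using this
    have hprod : cs.wordProd (β ++ [i]) = cs.wordProd β * cs.simple i := by
      rw [cs.wordProd_append, cs.wordProd_singleton]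
    have hcat : cs.leftInvSeq (β ++ [i]) =
        cs.leftInvSeq β ++ [cs.wordProd β * cs.simple i * (cs.wordProd β)⁻¹] := by
      have := cs.leftInvSeq_concat β i
      simpa [List.concat_eq_append] using this
    have hsub : ∀ ρ, cs.IsLeftInversion (cs.wordProd β) ρ →
        cs.IsLeftInversion (cs.wordProd (β ++ [i])) ρ := by
      intro ρ hρ
      rw [← mem_leftInvSeq_iff cs hω, hcat]
      rw [← mem_leftInvSeq_iff cs hβ] at hρ
      exact List.mem_append_left _ hρ
    rw [← mem_leftInvSeq_iff cs hω, hcat] at h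
    rcases List.mem_append.1 h with h1 | h1
    · rw [mem_leftInvSeq_iff cs hβ] at h1
      obtain ⟨u, j, hu, hu2⟩ := ih hβ h1
      exact ⟨u, j, hu, fun ρ hρ => hsub ρ (hu2 ρ hρ)⟩
    · exact ⟨cs.wordProd β, i, List.mem_singleton.1 h1, hsub⟩

/-- (3): if `1` and `x`, `y`, `z` are in the four quadrants then the walls are orthogonal -/
theorem Mix.quad (hM : Mix cs L χ) {t ρ x y z : W} (ht : χ t = 1) (hρ : χ ρ = -1)
    (hx : cs.IsLeftInversion x t) (hx' : ¬ cs.IsLeftInversion x ρ)
    (hy : cs.IsLeftInversion y t) (hy' : cs.IsLeftInversion y ρ)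
    (hz : ¬ cs.IsLeftInversion z t) (hz' : cs.IsLeftInversion z ρ) : t * ρ = ρ * t := by
  obtain ⟨u, i, hu, hu2⟩ := exists_cross cs hx
  have htz : cs.IsReflection (z⁻¹ * t * z) := rc cs hx.1 z
  have hρz : cs.IsReflection (z⁻¹ * ρ * z) := rc cs hy'.1 z
  have h1 : cs.IsLeftInversion (z⁻¹ * y) (z⁻¹ * t * z) := by
    have h2 := inv_mul_iff cs hx.1 z (z⁻¹ * y)
    rw [mul_inv_cancel_left] at h2
    tauto
  have h2 : ¬ cs.IsLeftInversion (z⁻¹ * y) (z⁻¹ * ρ * z) := by
    have h2 := inv_mul_iff cs hy'.1 z (z⁻¹ * y)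
    rw [mul_inv_cancel_left] at h2
    tauto
  obtain ⟨v, j, hv, hv2⟩ := exists_cross cs h1
  have hiL : i ∈ L := hM.mem_of_chi cs (by rw [← chi_conj χ u, ← hu, ht])
  have hjL : j ∈ L := hM.mem_of_chi cs (by rw [← chi_conj χ v, ← hv, chi_conj', ht])
  have hρu : ¬ cs.IsLeftInversion u ρ := fun h => hx' (hu2 ρ h)
  have hρv : ¬ cs.IsLeftInversion v (z⁻¹ * ρ * z) := fun h => h2 (hv2 _ h)
  have hρzv : cs.IsLeftInversion (z * v) ρ := by
    rw [inv_mul_iff cs hy'.1]
    tauto
  have hρw : cs.IsLeftInversion (u⁻¹ * (z * v)) (u⁻¹ * ρ * u) := by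
    have h3 := inv_mul_iff cs hy'.1 u (u⁻¹ * (z * v))
    rw [mul_inv_cancel_left] at h3
    tauto
  have ht2 : t = z * v * cs.simple j * (z * v)⁻¹ := by
    have : t = z * (z⁻¹ * t * z) * z⁻¹ := by group
    rw [this, hv]
    group
  have hw : cs.simple i * (u⁻¹ * (z * v)) = u⁻¹ * (z * v) * cs.simple j := by
    have h4 : u * cs.simple i * u⁻¹ = z * v * cs.simple j * (z * v)⁻¹ := by rw [← hu, ← ht2]
    calc cs.simple i * (u⁻¹ * (z * v)) = u⁻¹ * (u * cs.simple i * u⁻¹) * (z * v) := by group
      _ = u⁻¹ * (z * v * cs.simple j * (z * v)⁻¹) * (z * v) := by rw [h4]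
      _ = u⁻¹ * (z * v) * cs.simple j := by group
  have h5 := hM.key cs ((simple_mem_WP_iff cs).2 hiL) ((simple_mem_WP_iff cs).2 hjL) hw hρw
    (by rw [chi_conj', hρ])
  calc t * ρ = u * (cs.simple i * (u⁻¹ * ρ * u)) * u⁻¹ := by rw [hu]; group
    _ = u * (u⁻¹ * ρ * u * cs.simple i) * u⁻¹ := by rw [h5]
    _ = ρ * t := by rw [hu]; group

/-- orthogonal reflections are not inversions of each other -/
theorem not_inv_of_comm {t ρ : W} (ht : cs.IsReflection t) (hρ : cs.IsReflection ρ) (hne : t ≠ ρ)
    (hc : t * ρ = ρ * t) : ¬ cs.IsLeftInversion ρ t := by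
  obtain ⟨u, i, hu⟩ := hρ
  have e1 : ρ = u * (cs.simple i * u⁻¹) := by rw [hu, mul_assoc]
  have htu := rc cs ht u
  have h1 : u⁻¹ * t * u ≠ cs.simple i := by
    intro h
    apply hne
    rw [hu, ← h]
    group
  have e2 : u * (cs.simple i * (u⁻¹ * t * u) * cs.simple i) * u⁻¹ = t := by
    have h2 : ρ * ρ = 1 := by
      rw [hu]
      calc u * cs.simple i * u⁻¹ * (u * cs.simple i * u⁻¹)
          = u * (cs.simple i * cs.simple i) * u⁻¹ := by group
        _ = 1 := by rw [cs.simple_mul_simple_self]; group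
    calc u * (cs.simple i * (u⁻¹ * t * u) * cs.simple i) * u⁻¹
        = u * cs.simple i * u⁻¹ * t * (u * cs.simple i * u⁻¹) := by group
      _ = ρ * t * ρ := by rw [← hu]
      _ = t := by rw [← hc, mul_assoc, h2, mul_one]
  rw [e1, inv_mul_iff cs ht, inv_smul_ne cs htu h1, inv_inv_iff, e2]
  tauto

end Pool.Agent.H73.HM
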