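import Pool.Agent.H73.HM.Final
import Pool.Agent.H73.HVN.Bridge

/-!
# Project HM: the hypothesis of the statement

`(W, S)` a Coxeter system, `L ⊆ S`.
-/

set_option autoImplicit false

namespace Pool.Agent.H73.HM

universe u v

variable {B : Type v} {W : Type u} [Group W] {M : CoxeterMatrix B} (cs : CoxeterSystem M W)

/-- The condition on `L`: `m_{st}` is `2` or `∞` for all `s ∉ L`, `t ∈ L` (in Mathlib `M i j = 0` encodes
`m_{ij} = ∞`), and every finite set `K` of generators outside `L` with `m_{st} < ∞` for all `s, t ∈ K`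
generates a finite subgroup. There is no condition on `m_{st}` for `s, t ∈ L`. -/
def Mixed (L : Set B) : Prop :=
  (∀ i, i ∉ L → ∀ j ∈ L, M i j = 2 ∨ M i j = 0) ∧
    ∀ K : Finset B, (∀ i ∈ K, i ∉ L) → (∀ i ∈ K, ∀ j ∈ K, M i j ≠ 0) →
      Finite (Subgroup.closure (cs.simple '' (K : Set B)))

end Pool.Agent.H73.HM
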